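import Pool.Agent.Lib.MP_89bcae_ag.Zr.Lat

set_option autoImplicit false

/-!
# The cyclotomic field over the `l`-adic numbers embeds into the complex numbers
-/

namespace MP89bZ

open Polynomial Cardinal

variable {l : ℕ} [hl : Fact l.Prime]

theorem padic_card_le : #ℚ_[l] ≤ 𝔠 := by
  have h1 : Function.Surjective (Quotient.mk'' : CauSeq ℚ (padicNorm l) → ℚ_[l]) := Quotient.mk''_surjective
  refine (mk_le_of_surjective h1).trans ?_
  have h2 : #(CauSeq ℚ (padicNorm l)) ≤ #(ℕ → ℚ) := mk_le_of_injective Subtype.val_injective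
  refine h2.trans ?_
  simp

theorem padic_card : #ℚ_[l] = 𝔠 :=
  le_antisymm padic_card_le (continuum_le_cardinal_of_nontriviallyNormedField ℚ_[l])

theorem exists_embC : Nonempty (AdjoinRoot (cyclotomic l ℚ_[l]) →+* ℂ) := by
  let L := AdjoinRoot (cyclotomic l ℚ_[l])
  let K := AlgebraicClosure L
  have h0 : CharZero L := charZero_of_injective_algebraMap (algebraMap ℚ_[l] L).injective
  have hK0 : CharZero K := charZero_of_injective_algebraMap (algebraMap L K).injective
  have : FiniteDimensional ℚ_[l] L := (AdjoinRoot.powerBasis (cyclotomic_ne_zero l ℚ_[l])).finite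
  have : Algebra.IsAlgebraic ℚ_[l] L := Algebra.IsAlgebraic.of_finite _ _
  have hKa : Algebra.IsAlgebraic ℚ_[l] K := Algebra.IsAlgebraic.trans ℚ_[l] L K
  have h1 : #K ≤ max #ℚ_[l] ℵ₀ := Algebra.IsAlgebraic.cardinalMk_le_max _ _
  rw [padic_card, max_eq_left aleph0_le_continuum] at h1
  have h2 : 𝔠 ≤ #K := by
    rw [← padic_card (l := l)]
    exact mk_le_of_injective (algebraMap ℚ_[l] K).injective
  have h3 : #K = 𝔠 := le_antisymm h1 h2
  have h4 : Nonempty (K ≃+* ℂ) := by
    refine IsAlgClosed.ringEquiv_of_equiv_of_charZero ?_ ?_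
    · rw [h3]; exact aleph0_lt_continuum
    · refine Cardinal.eq.1 ?_
      rw [h3, mk_complex]
  obtain ⟨e⟩ := h4
  exact ⟨(e : K →+* ℂ).comp (algebraMap L K)⟩

section final

open TensorProduct Finset

universe u

variable {M : Type u} [AddCommGroup M] [Module ℤ_[l] M]
  [Module.Finite ℤ_[l] M] [Module.IsTorsionFree ℤ_[l] M]

/-- The automorphisms of the lattice `M` as automorphisms of a complex vector space of dimension at most `n`. -/
theorem exists_spaceC (σ : Module.End ℤ_[l] M) (hσ : ∑ i ∈ range l, σ ^ i = 0) {n : ℕ}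
    (hn : Nat.card (M ⧸ LinearMap.range (σ - 1)) = l ^ n) :
    ∃ (V : Type u) (_ : AddCommGroup V) (_ : Module ℂ V) (_ : FiniteDimensional ℂ V),
      Module.finrank ℂ V ≤ n ∧
      ∃ F : Submonoid.centralizer ({σ} : Set (Module.End ℤ_[l] M)) →* Module.End ℂ V,
        Function.Injective F := by
  classical
  -- the field
  let L := AdjoinRoot (cyclotomic l ℚ_[l])
  have hL0 : CharZero L := charZero_of_injective_algebraMap (algebraMap ℚ_[l] L).injective
  have hflat : Module.Flat ℤ_[l] M := inferInstance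
  let W := ℚ_[l] ⊗[ℤ_[l]] M
  let modL : Module L W := Module.compHom W (actL σ hσ)
  have hsmul : ∀ (a : L) (w : W), a • w = (actL σ hσ a) w := fun _ _ => rfl
  have hmkC : ∀ (q : ℚ_[l]) (w : W), (AdjoinRoot.mk (cyclotomic l ℚ_[l]) (C q)) • w = q • w := by
    intro q w
    rw [hsmul, actL_mk, aeval_C]
    rfl
  have hroot : ∀ (w : W), (AdjoinRoot.mk (cyclotomic l ℚ_[l]) X) • w =
      (Module.End.baseChangeHom ℤ_[l] ℚ_[l] M σ) w := by
    intro w
    rw [hsmul, actL_mk, aeval_X]
  -- generators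
  obtain ⟨b, hb⟩ := exists_gens σ hσ hn
  have hspan : Submodule.span L (Set.range fun i : Fin n => ((1 : ℚ_[l]) ⊗ₜ[ℤ_[l]] b i : W)) = ⊤ := by
    set S := Submodule.span L (Set.range fun i : Fin n => ((1 : ℚ_[l]) ⊗ₜ[ℤ_[l]] b i : W)) with hS
    have hQ : ∀ (q : ℚ_[l]) (w : W), w ∈ S → q • w ∈ S := fun q w hw => by
      rw [← hmkC]; exact S.smul_mem _ hw
    let M1 : Submodule ℤ_[l] M :=
      { carrier := {m | ((1 : ℚ_[l]) ⊗ₜ[ℤ_[l]] m : W) ∈ S}
        add_mem' := by
          intro m m' h h'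
          show ((1 : ℚ_[l]) ⊗ₜ[ℤ_[l]] (m + m') : W) ∈ S
          rw [TensorProduct.tmul_add]
          exact S.add_mem h h'
        zero_mem' := by
          show ((1 : ℚ_[l]) ⊗ₜ[ℤ_[l]] (0 : M) : W) ∈ S
          rw [TensorProduct.tmul_zero]
          exact S.zero_mem
        smul_mem' := by
          intro c m h
          show ((1 : ℚ_[l]) ⊗ₜ[ℤ_[l]] (c • m) : W) ∈ S
          have e : ((1 : ℚ_[l]) ⊗ₜ[ℤ_[l]] (c • m) : W) =
              (algebraMap ℤ_[l] ℚ_[l] c) • ((1 : ℚ_[l]) ⊗ₜ[ℤ_[l]] m : W) := by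
            rw [TensorProduct.smul_tmul', smul_eq_mul, mul_one, ← TensorProduct.smul_tmul,
              Algebra.smul_def, mul_one]
          rw [e]
          exact hQ _ _ h }
    have hM1 : M1 = ⊤ := by
      refine gen_of_mod σ hσ M1 ?_ ?_
      · intro m hm
        show ((1 : ℚ_[l]) ⊗ₜ[ℤ_[l]] (σ m) : W) ∈ S
        have e : ((1 : ℚ_[l]) ⊗ₜ[ℤ_[l]] (σ m) : W) =
            (AdjoinRoot.mk (cyclotomic l ℚ_[l]) X) • ((1 : ℚ_[l]) ⊗ₜ[ℤ_[l]] m : W) := by
          rw [hroot]
          rfl
        rw [e]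
        exact S.smul_mem _ hm
      · intro m
        obtain ⟨c, m', h⟩ := hb m
        refine ⟨∑ i, c i • b i, ?_, m', h⟩
        refine sum_mem fun i _ => ?_
        refine zsmul_mem (S := Submodule ℤ_[l] M) ?_ _
        exact Submodule.subset_span ⟨i, rfl⟩
    rw [eq_top_iff]
    intro w _
    induction w using TensorProduct.induction_on with
    | zero => exact S.zero_mem
    | add x y hx hy => exact S.add_mem (hx trivial) (hy trivial)
    | tmul q m =>
      have hm : m ∈ M1 := by rw [hM1]; exact Submodule.mem_top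
      have e : (q ⊗ₜ[ℤ_[l]] m : W) = q • ((1 : ℚ_[l]) ⊗ₜ[ℤ_[l]] m : W) := by
        rw [TensorProduct.smul_tmul', smul_eq_mul, mul_one]
      rw [e]
      exact hQ _ _ hm
  have hfinL : Module.Finite L W := by
    refine ⟨⟨Finset.univ.image (fun i : Fin n => ((1 : ℚ_[l]) ⊗ₜ[ℤ_[l]] b i : W)), ?_⟩⟩
    rw [Finset.coe_image, Finset.coe_univ, Set.image_univ, hspan]
  have hfr : Module.finrank L W ≤ n := by
    have := finrank_le_of_span_eq_top hspan
    simpa using this
  -- the embedding
  obtain ⟨ι⟩ := exists_embC (l := l)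
  let _ : Algebra L ℂ := ι.toAlgebra
  refine ⟨ℂ ⊗[L] W, inferInstance, inferInstance,
    inferInstance, ?_, ?_⟩
  · rw [Module.finrank_baseChange]
    exact hfr
  -- the homomorphism
  have hcomm : ∀ f : Submonoid.centralizer ({σ} : Set (Module.End ℤ_[l] M)), ∀ (a : L) (w : W),
      (Module.End.baseChangeHom ℤ_[l] ℚ_[l] M (f : Module.End ℤ_[l] M)) (a • w) =
        a • (Module.End.baseChangeHom ℤ_[l] ℚ_[l] M (f : Module.End ℤ_[l] M)) w := by
    intro f a w
    obtain ⟨p, rfl⟩ := AdjoinRoot.mk_surjective a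
    rw [hsmul, hsmul, actL_mk]
    have h1 : Commute (Module.End.baseChangeHom ℤ_[l] ℚ_[l] M (f : Module.End ℤ_[l] M))
        (Module.End.baseChangeHom ℤ_[l] ℚ_[l] M σ) := by
      have h2 : σ * (f : Module.End ℤ_[l] M) = (f : Module.End ℤ_[l] M) * σ :=
        Submonoid.mem_centralizer_iff.1 f.2 σ rfl
      show _ * _ = _ * _
      rw [← map_mul, ← map_mul, h2]
    have h3 : Commute (Module.End.baseChangeHom ℤ_[l] ℚ_[l] M (f : Module.End ℤ_[l] M))
        (aeval (Module.End.baseChangeHom ℤ_[l] ℚ_[l] M σ) p) := by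
      induction p using Polynomial.induction_on' with
      | add p q hp hq => rw [map_add]; exact hp.add_right hq
      | monomial k c =>
        rw [aeval_monomial]
        exact (Algebra.commute_algebraMap_right c _).mul_right (h1.pow_right k)
    exact congrArg (fun T : Module.End ℚ_[l] W => T w) h3.eq
  let F1 : Submonoid.centralizer ({σ} : Set (Module.End ℤ_[l] M)) →* Module.End L W :=
    { toFun := fun f =>
        { toFun := fun w => (Module.End.baseChangeHom ℤ_[l] ℚ_[l] M (f : Module.End ℤ_[l] M)) w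
          map_add' := fun x y => map_add _ x y
          map_smul' := fun a w => hcomm f a w }
      map_one' := by
        ext w
        show (Module.End.baseChangeHom ℤ_[l] ℚ_[l] M (1 : Module.End ℤ_[l] M)) w = w
        rw [map_one]; rfl
      map_mul' := by
        intro f g
        ext w
        show (Module.End.baseChangeHom ℤ_[l] ℚ_[l] M ((f : Module.End ℤ_[l] M) * g)) w = _
        rw [map_mul]; rfl }
  have hF1 : Function.Injective F1 := by
    intro f g hfg
    apply Subtype.ext
    have h1 : Function.Injective (LinearMap.baseChangeHom ℤ_[l] ℚ_[l] M M) :=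
      LinearMap.baseChangeHom_injective ℤ_[l] M ℚ_[l]
    apply h1
    refine LinearMap.ext fun w => ?_
    exact congrArg (fun T : Module.End L W => T w) hfg
  refine ⟨((Module.End.baseChangeHom L ℂ W : Module.End L W →ₐ[L] _) : Module.End L W →* _).comp F1, ?_⟩
  intro f g hfg
  apply hF1
  have h1 : Function.Injective (LinearMap.baseChangeHom L ℂ W W) :=
    LinearMap.baseChangeHom_injective L W ℂ
  exact h1 hfg

end final

end MP89bZ
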