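import Mathlib

set_option autoImplicit false

/-!
# The elements of large prime power order of a finite linear group commute (Jordan)
-/

namespace MP89bZ

open Finset

/-- a norm, as a function -/
structure JNorm {V : Type*} [AddCommGroup V] [Module ℂ V] (N : V → ℝ) : Prop where
  nonneg : ∀ v, 0 ≤ N v
  add : ∀ v w, N (v + w) ≤ N v + N w
  smul : ∀ (c : ℂ) v, N (c • v) = ‖c‖ * N v
  zero : ∀ v, N v = 0 → v = 0

/-- the operator norm of `T` is at most `c` -/
def JBd {V : Type*} [AddCommGroup V] [Module ℂ V] (N : V → ℝ) (T : Module.End ℂ V) (c : ℝ) : Prop :=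
  ∀ v, N (T v) ≤ c * N v

/-- the projection to the eigenspace of `A` with eigenvalue `μ`, where `A ^ d = 1` -/
noncomputable def jP {V : Type*} [AddCommGroup V] [Module ℂ V] (d : ℕ) (A : Module.End ℂ V) (μ : ℂ) :
    Module.End ℂ V :=
  (d : ℂ)⁻¹ • ∑ i ∈ range d, (μ⁻¹) ^ i • A ^ i

section bd

variable {V : Type*} [AddCommGroup V] [Module ℂ V] {N : V → ℝ}

theorem JNorm.neg (hN : JNorm N) (v : V) : N (-v) = N v := by
  have := hN.smul (-1) v
  simpa using this

theorem JNorm.map_zero (hN : JNorm N) : N 0 = 0 := by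
  have := hN.smul 0 0
  simpa using this

theorem JBd.mono (hN : JNorm N) {T : Module.End ℂ V} {c d : ℝ} (h : JBd N T c) (hcd : c ≤ d) :
    JBd N T d := fun v => (h v).trans (mul_le_mul_of_nonneg_right hcd (hN.nonneg v))

theorem JBd.add (hN : JNorm N) {T S : Module.End ℂ V} {c d : ℝ} (hT : JBd N T c) (hS : JBd N S d) :
    JBd N (T + S) (c + d) := by
  intro v
  rw [LinearMap.add_apply, add_mul]
  exact (hN.add _ _).trans (add_le_add (hT v) (hS v))

theorem JBd.sub (hN : JNorm N) {T S : Module.End ℂ V} {c d : ℝ} (hT : JBd N T c) (hS : JBd N S d) :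
    JBd N (T - S) (c + d) := by
  intro v
  rw [LinearMap.sub_apply, add_mul, sub_eq_add_neg]
  refine (hN.add _ _).trans (add_le_add (hT v) ?_)
  rw [hN.neg]
  exact hS v

theorem JBd.mul {T S : Module.End ℂ V} {c d : ℝ} (hc : 0 ≤ c) (hT : JBd N T c) (hS : JBd N S d) :
    JBd N (T * S) (c * d) := by
  intro v
  rw [Module.End.mul_apply, mul_assoc]
  exact (hT _).trans (mul_le_mul_of_nonneg_left (hS v) hc)

theorem JBd.smul (hN : JNorm N) {T : Module.End ℂ V} {c : ℝ} (a : ℂ) (hT : JBd N T c) :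
    JBd N (a • T) (‖a‖ * c) := by
  intro v
  rw [LinearMap.smul_apply, hN.smul, mul_assoc]
  exact mul_le_mul_of_nonneg_left (hT v) (norm_nonneg a)

theorem JBd.one : JBd N (1 : Module.End ℂ V) 1 := by
  intro v
  rw [Module.End.one_apply, one_mul]

theorem JBd.zero (hN : JNorm N) : JBd N (0 : Module.End ℂ V) 0 := by
  intro v
  rw [LinearMap.zero_apply, hN.map_zero, zero_mul]

theorem JBd.sum (hN : JNorm N) {ι : Type*} (s : Finset ι) (T : ι → Module.End ℂ V) (c : ι → ℝ)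
    (h : ∀ i ∈ s, JBd N (T i) (c i)) : JBd N (∑ i ∈ s, T i) (∑ i ∈ s, c i) := by
  classical
  induction s using Finset.induction_on with
  | empty => simpa using JBd.zero hN
  | insert a s ha ih =>
    rw [Finset.sum_insert ha, Finset.sum_insert ha]
    exact JBd.add hN (h a (Finset.mem_insert_self a s))
      (ih fun i hi => h i (Finset.mem_insert_of_mem hi))

theorem JBd.pow {T : Module.End ℂ V} (hT : JBd N T 1) (i : ℕ) : JBd N (T ^ i) 1 := by
  induction i with
  | zero => rw [pow_zero]; exact JBd.one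
  | succ i ih =>
    rw [pow_succ]
    have := JBd.mul zero_le_one ih hT
    rwa [one_mul] at this

theorem JBd.idem (hN : JNorm N) {T : Module.End ℂ V} {c : ℝ} (hT : JBd N T c) (hc : c < 1)
    (h : T * T = T) : T = 0 := by
  apply LinearMap.ext
  intro v
  have h1 := hT (T v)
  have h2 : T (T v) = T v := LinearMap.congr_fun h v
  rw [h2] at h1
  have h3 := hN.nonneg (T v)
  apply hN.zero
  nlinarith

end bd

section proj

variable {V : Type*} [AddCommGroup V] [Module ℂ V] {d : ℕ} {A : Module.End ℂ V}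

theorem jP_eigen (hd : 0 < d) (hA : A ^ d = 1) {μ : ℂ} (hμ : μ ^ d = 1) :
    A * jP d A μ = μ • jP d A μ := by
  have hμ0 : μ ≠ 0 := by
    rintro rfl
    rw [zero_pow hd.ne'] at hμ
    exact zero_ne_one hμ
  unfold jP
  rw [mul_smul_comm, smul_comm μ, Finset.mul_sum]
  congr 1
  have h1 : ∀ i, A * (μ⁻¹ ^ i • A ^ i) = μ • (μ⁻¹ ^ (i + 1) • A ^ (i + 1)) := by
    intro i
    rw [mul_smul_comm, ← pow_succ', smul_smul, pow_succ μ⁻¹, mul_comm μ, mul_assoc,
      inv_mul_cancel₀ hμ0, mul_one]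
  rw [Finset.sum_congr rfl fun i _ => h1 i, ← Finset.smul_sum]
  congr 1
  have h2 := Finset.sum_range_succ (fun i => μ⁻¹ ^ i • A ^ i) d
  rw [Finset.sum_range_succ' (fun i => μ⁻¹ ^ i • A ^ i) d] at h2
  have e3 : μ⁻¹ ^ d = 1 := by rw [inv_pow, hμ, inv_one]
  rw [hA, e3] at h2
  simpa using h2

theorem jP_pow_eigen (hd : 0 < d) (hA : A ^ d = 1) {μ : ℂ} (hμ : μ ^ d = 1) (i : ℕ) :
    A ^ i * jP d A μ = μ ^ i • jP d A μ := by
  induction i with
  | zero => simp
  | succ i ih =>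
    rw [pow_succ, mul_assoc, jP_eigen hd hA hμ, mul_smul_comm, ih, smul_smul, pow_succ, mul_comm]

theorem j_geom {ν : ℂ} (hν : ν ^ d = 1) (h1 : ν ≠ 1) : ∑ i ∈ range d, ν ^ i = 0 := by
  have h := mul_geom_sum ν d
  rw [hν, sub_self] at h
  rcases mul_eq_zero.1 h with h2 | h2
  · exact absurd (sub_eq_zero.1 h2) h1
  · exact h2

theorem jP_mul (hd : 0 < d) (hA : A ^ d = 1) {μ ν : ℂ} (hμ : μ ^ d = 1) (hν : ν ^ d = 1) :
    jP d A μ * jP d A ν = if μ = ν then jP d A ν else 0 := by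
  have hμ0 : μ ≠ 0 := by
    rintro rfl
    rw [zero_pow hd.ne'] at hμ
    exact zero_ne_one hμ
  have hd' : (d : ℂ) ≠ 0 := by exact_mod_cast hd.ne'
  have e : jP d A μ * jP d A ν = ((d : ℂ)⁻¹ * ∑ i ∈ range d, (μ⁻¹ * ν) ^ i) • jP d A ν := by
    conv_lhs => rw [jP]
    rw [smul_mul_assoc, Finset.sum_mul, mul_smul, Finset.sum_smul]
    congr 1
    apply Finset.sum_congr rfl
    intro i _
    rw [smul_mul_assoc, jP_pow_eigen hd hA hν, smul_smul, mul_pow]
  rw [e]
  split_ifs with h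
  · subst h
    rw [inv_mul_cancel₀ hμ0]
    simp [hd']
  · rw [j_geom, mul_zero, zero_smul]
    · rw [mul_pow, inv_pow, hμ, hν]; simp
    · intro h1
      apply h
      rw [inv_mul_eq_one₀ hμ0] at h1
      exact h1

theorem jP_bd {N : V → ℝ} (hN : JNorm N) (hd : 0 < d) (hA : JBd N A 1) {μ : ℂ} (hμ : ‖μ‖ = 1) :
    JBd N (jP d A μ) 1 := by
  have hd' : (0 : ℝ) < d := by exact_mod_cast hd
  have h1 : JBd N (∑ i ∈ range d, (μ⁻¹) ^ i • A ^ i) (∑ i ∈ range d, 1) := by
    apply JBd.sum hN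
    intro i _
    have := JBd.smul hN ((μ⁻¹) ^ i) (hA.pow i)
    rwa [norm_pow, norm_inv, hμ, inv_one, one_pow, mul_one] at this
  have h2 := JBd.smul hN ((d : ℂ)⁻¹) h1
  have h3 : ‖(d : ℂ)⁻¹‖ * ∑ i ∈ range d, (1 : ℝ) = 1 := by
    simp [hd'.ne']
  rw [h3] at h2
  exact h2

theorem jP_sum (hd : 0 < d) {ζ : ℂ} (hζ : IsPrimitiveRoot ζ d) :
    ∑ k ∈ range d, jP d A (ζ ^ k) = 1 := by
  have hd' : (d : ℂ) ≠ 0 := by exact_mod_cast hd.ne'
  have hζ0 : ζ ≠ 0 := hζ.ne_zero hd.ne'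
  unfold jP
  rw [← Finset.smul_sum, Finset.sum_comm]
  have h1 : ∀ i ∈ range d, ∑ k ∈ range d, ((ζ ^ k)⁻¹ ^ i • A ^ i) =
      if i = 0 then (d : ℂ) • (1 : Module.End ℂ V) else 0 := by
    intro i hi
    rw [← Finset.sum_smul]
    have h2 : ∀ k ∈ range d, (ζ ^ k)⁻¹ ^ i = ((ζ ^ i)⁻¹) ^ k := by
      intro k _
      rw [← inv_pow, ← inv_pow, ← pow_mul, ← pow_mul, mul_comm]
    rw [Finset.sum_congr rfl h2]
    split_ifs with h
    · subst h
      simp
    · rw [j_geom, zero_smul]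
      · rw [inv_pow, ← pow_mul, mul_comm, pow_mul, hζ.pow_eq_one, one_pow, inv_one]
      · intro h3
        rw [inv_eq_one] at h3
        exact hζ.pow_ne_one_of_pos_of_lt h (Finset.mem_range.1 hi) h3
  rw [Finset.sum_congr rfl h1, Finset.sum_ite_eq' (range d) 0, if_pos (Finset.mem_range.2 hd),
    smul_smul, inv_mul_cancel₀ hd', one_smul]

theorem jP_eq (hd : 0 < d) (hA : A ^ d = 1) {ζ : ℂ} (hζ : IsPrimitiveRoot ζ d) (i : ℕ) :
    A ^ i = ∑ k ∈ range d, (ζ ^ k) ^ i • jP d A (ζ ^ k) := by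
  have h : ∀ k : ℕ, (ζ ^ k) ^ d = 1 := by
    intro k
    rw [← pow_mul, mul_comm, pow_mul, hζ.pow_eq_one, one_pow]
  calc A ^ i = A ^ i * ∑ k ∈ range d, jP d A (ζ ^ k) := by rw [jP_sum hd hζ, mul_one]
    _ = ∑ k ∈ range d, (ζ ^ k) ^ i • jP d A (ζ ^ k) := by
        rw [Finset.mul_sum]
        exact Finset.sum_congr rfl fun k _ => jP_pow_eigen hd hA (h k) i

theorem jP_conj {B B' : Module.End ℂ V} (h : B' * B = 1) (h' : B * B' = 1) (μ : ℂ) :
    B * jP d A μ * B' = jP d (B * A * B') μ := by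
  have h1 : ∀ i : ℕ, B * A ^ i * B' = (B * A * B') ^ i := by
    intro i
    induction i with
    | zero => rw [pow_zero, pow_zero, mul_one, h']
    | succ i ih =>
      rw [pow_succ, pow_succ, ← ih]
      calc B * (A ^ i * A) * B' = B * A ^ i * 1 * A * B' := by
            rw [mul_one]; simp only [mul_assoc]
        _ = B * A ^ i * B' * (B * A * B') := by
            rw [← h]; simp only [mul_assoc]
  unfold jP
  rw [mul_smul_comm, smul_mul_assoc, Finset.mul_sum, Finset.sum_mul]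
  congr 1
  apply Finset.sum_congr rfl
  intro i _
  rw [mul_smul_comm, smul_mul_assoc, h1]

/-- at most `dim V` of the projections are not zero -/
theorem jP_card [FiniteDimensional ℂ V] (hd : 0 < d) (hA : A ^ d = 1) {ζ : ℂ}
    (hζ : IsPrimitiveRoot ζ d) (s : Finset ℕ) (hs : ∀ k ∈ s, k < d ∧ jP d A (ζ ^ k) ≠ 0) :
    s.card ≤ Module.finrank ℂ V := by
  have h : ∀ k : ℕ, (ζ ^ k) ^ d = 1 := by
    intro k
    rw [← pow_mul, mul_comm, pow_mul, hζ.pow_eq_one, one_pow]
  have hv : ∀ k : s, ∃ v : V, A.HasEigenvector (ζ ^ (k : ℕ)) v := by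
    intro k
    have h1 := (hs k k.2).2
    obtain ⟨v, hv⟩ : ∃ v, jP d A (ζ ^ (k : ℕ)) v ≠ 0 := by
      by_contra hne
      push Not at hne
      exact h1 (LinearMap.ext hne)
    refine ⟨jP d A (ζ ^ (k : ℕ)) v, ?_, hv⟩
    rw [Module.End.mem_eigenspace_iff]
    exact LinearMap.congr_fun (jP_eigen hd hA (h k)) v
  choose v hv using hv
  have hli := Module.End.eigenvectors_linearIndependent' A (fun k : s => ζ ^ (k : ℕ)) (by
    intro a b hab
    apply Subtype.ext
    exact hζ.pow_inj (hs a a.2).1 (hs b b.2).1 hab) v hv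
  have := hli.fintype_card_le_finrank
  simpa using this

end proj

section small

variable {Γ : Type*} [Group Γ] {V : Type*} [AddCommGroup V] [Module ℂ V] {N : V → ℝ}
  {ρ : Γ →* Module.End ℂ V}

/-- `γ` is near to `1` -/
def JSmall (N : V → ℝ) (ρ : Γ →* Module.End ℂ V) (γ : Γ) : Prop :=
  ∃ c : ℝ, 0 ≤ c ∧ c < 1 / 2 ∧ JBd N (1 - ρ γ) c

theorem j_comm_bd (hN : JNorm N) (hinv : ∀ γ v, N (ρ γ v) = N v) {a b : Γ} {c c' : ℝ} (hc : 0 ≤ c)
    (hc' : 0 ≤ c') (ha : JBd N (1 - ρ a) c) (hb : JBd N (1 - ρ b) c') :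
    JBd N (1 - ρ (a * b * a⁻¹ * b⁻¹)) (2 * c * c') := by
  have h1 : JBd N (ρ (a⁻¹ * b⁻¹)) 1 := fun v => by rw [hinv, one_mul]
  have h2 : (1 : Module.End ℂ V) - ρ (a * b * a⁻¹ * b⁻¹) =
      ((1 - ρ b) * (1 - ρ a) - (1 - ρ a) * (1 - ρ b)) * ρ (a⁻¹ * b⁻¹) := by
    have h3 : (1 - ρ b) * (1 - ρ a) - (1 - ρ a) * (1 - ρ b) = ρ b * ρ a - ρ a * ρ b := by
      noncomm_ring
    rw [h3, sub_mul, ← map_mul, ← map_mul, ← map_mul, ← map_mul]
    have h4 : b * a * (a⁻¹ * b⁻¹) = 1 := by group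
    have h5 : a * b * (a⁻¹ * b⁻¹) = a * b * a⁻¹ * b⁻¹ := by group
    rw [h4, h5, map_one]
  rw [h2]
  have h6 := JBd.sub hN (JBd.mul hc' hb ha) (JBd.mul hc ha hb)
  have h7 := JBd.mul (by positivity) h6 h1
  refine h7.mono hN (le_of_eq ?_)
  ring

/-- Frobenius -/
theorem j_frob (hN : JNorm N) (hinv : ∀ γ v, N (ρ γ v) = N v) (hρ : Function.Injective ρ)
    {a b : Γ} {d : ℕ} (hd : 0 < d) (had : a ^ d = 1) (hb : JSmall N ρ b)
    (h : a * (a * b * a⁻¹ * b⁻¹) = (a * b * a⁻¹ * b⁻¹) * a) : a * b = b * a := by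
  obtain ⟨c, hc0, hc, hbd⟩ := hb
  -- `a` commutes with `b a b⁻¹`
  have h1 : a * (b * a * b⁻¹) = (b * a * b⁻¹) * a := by
    have h2 : a * (b * a⁻¹ * b⁻¹) = (b * a⁻¹ * b⁻¹) * a := by
      have h3 : a * (a * (b * a⁻¹ * b⁻¹)) = a * ((b * a⁻¹ * b⁻¹) * a) := by
        have e1 : a * (a * b * a⁻¹ * b⁻¹) = a * (a * (b * a⁻¹ * b⁻¹)) := by group
        have e2 : (a * b * a⁻¹ * b⁻¹) * a = a * ((b * a⁻¹ * b⁻¹) * a) := by group
        rw [← e1, ← e2, h]
      exact mul_left_cancel h3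
    have h4 : Commute a (b * a⁻¹ * b⁻¹) := h2
    have h5 := h4.inv_right
    have h6 : (b * a⁻¹ * b⁻¹)⁻¹ = b * a * b⁻¹ := by group
    rw [h6] at h5
    exact h5
  set A : Module.End ℂ V := ρ a with hA
  set B : Module.End ℂ V := ρ b with hB
  set B' : Module.End ℂ V := ρ b⁻¹ with hB'
  have hBB' : B * B' = 1 := by rw [hB, hB', ← map_mul, mul_inv_cancel, map_one]
  have hB'B : B' * B = 1 := by rw [hB, hB', ← map_mul, inv_mul_cancel, map_one]
  have hAd : A ^ d = 1 := by rw [hA, ← map_pow, had, map_one]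
  have hA1 : JBd N A 1 := fun v => by rw [hA, hinv, one_mul]
  have hB1 : JBd N B' 1 := fun v => by rw [hB', hinv, one_mul]
  set A' : Module.End ℂ V := B * A * B' with hA'
  have hA'e : A' = ρ (b * a * b⁻¹) := by rw [hA', hA, hB, hB', map_mul, map_mul]
  have hA'd : A' ^ d = 1 := by
    rw [hA'e, ← map_pow]
    have : (b * a * b⁻¹) ^ d = 1 := by rw [conj_pow, had]; group
    rw [this, map_one]
  have hcomm : Commute A A' := by
    show A * A' = A' * A
    rw [hA'e, hA, ← map_mul, ← map_mul, h1]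
  have hζ := Complex.isPrimitiveRoot_exp d hd.ne'
  set ζ := Complex.exp (2 * Real.pi * Complex.I / d) with hζd
  have hpow : ∀ k : ℕ, (ζ ^ k) ^ d = 1 := by
    intro k
    rw [← pow_mul, mul_comm, pow_mul, hζ.pow_eq_one, one_pow]
  have hnorm : ∀ k : ℕ, ‖ζ ^ k‖ = 1 := by
    intro k
    exact Complex.norm_eq_one_of_pow_eq_one (hpow k) hd.ne'
  have hPP : ∀ k : ℕ, jP d A' (ζ ^ k) = jP d A (ζ ^ k) := by
    intro k
    set P := jP d A (ζ ^ k) with hP
    have hPc : jP d A' (ζ ^ k) = B * P * B' := (jP_conj hB'B hBB' _).symm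
    set P' := jP d A' (ζ ^ k) with hP'
    have hP2 : P * P = P := by
      have := jP_mul hd hAd (hpow k) (hpow k)
      rwa [if_pos rfl] at this
    have hP'2 : P' * P' = P' := by
      have := jP_mul hd hA'd (hpow k) (hpow k)
      rwa [if_pos rfl] at this
    have hPP' : P * P' = P' * P := by
      have h3 : Commute P P' := by
        rw [hP, hP', jP, jP]
        apply Commute.smul_left
        apply Commute.smul_right
        apply Commute.sum_left
        intro i _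
        apply Commute.sum_right
        intro j _
        exact ((hcomm.pow_pow i j).smul_left _).smul_right _
      exact h3
    have hbP : JBd N P 1 := jP_bd hN hd hA1 (hnorm k)
    have hbD : JBd N (P' - P) (2 * c) := by
      have h4 : P' - P = (P * (1 - B) - (1 - B) * P) * B' := by
        rw [hPc]
        have h5 : (P * (1 - B) - (1 - B) * P) * B' = B * P * B' - P * (B * B') := by
          noncomm_ring
        rw [h5, hBB', mul_one]
      rw [h4]
      have h6 := JBd.sub hN (JBd.mul zero_le_one hbP hbd) (JBd.mul hc0 hbd hbP)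
      have h7 := JBd.mul (by positivity) h6 hB1
      refine h7.mono hN (le_of_eq ?_)
      ring
    have hD3 : (P' - P) * ((P' - P) * (P' - P)) = P' - P := by
      have e1 : (P' - P) * (P' - P) = P' + P - P' * P - P' * P := by
        rw [sub_mul, mul_sub, mul_sub, hP2, hP'2, hPP']
        abel
      rw [e1]
      have e2 : (P' - P) * (P' + P - P' * P - P' * P) =
          P' * P' + P' * P - (P' * P') * P - (P' * P') * P - P * P' - P * P
            + (P * P') * P + (P * P') * P := by noncomm_ring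
      rw [e2, hPP', hP2, hP'2]
      have e3 : P' * P * P = P' * P := by rw [mul_assoc, hP2]
      rw [e3]
      abel
    have hD0 : (P' - P) * (P' - P) = 0 := by
      have hb2 := JBd.mul (by positivity) hbD hbD
      refine JBd.idem hN hb2 (by nlinarith) ?_
      calc (P' - P) * (P' - P) * ((P' - P) * (P' - P))
          = (P' - P) * ((P' - P) * ((P' - P) * (P' - P))) := by simp only [mul_assoc]
        _ = (P' - P) * (P' - P) := by rw [hD3]
    rw [hD0, mul_zero] at hD3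
    exact (sub_eq_zero.1 hD3.symm)
  have hAA' : A' = A := by
    have e1 := jP_eq hd hAd hζ 1
    have e2 := jP_eq hd hA'd hζ 1
    rw [pow_one] at e1 e2
    rw [e1, e2]
    exact Finset.sum_congr rfl fun k _ => by rw [hPP]
  rw [hA'e, hA] at hAA'
  have h8 := hρ hAA'
  rw [mul_inv_eq_iff_eq_mul] at h8
  exact h8.symm

theorem j_small_comm [Finite Γ] (hN : JNorm N) (hinv : ∀ γ v, N (ρ γ v) = N v)
    (hρ : Function.Injective ρ) {a b : Γ} (ha : JSmall N ρ a) (hb : JSmall N ρ b) :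
    a * b = b * a := by
  obtain ⟨c, hc0, hc, hac⟩ := ha
  obtain ⟨c', hc0', hc', hbc⟩ := id hb
  -- the sequence of commutators
  let C : ℕ → Γ := fun k => Nat.rec b (fun _ x => a * x * a⁻¹ * x⁻¹) k
  have hC0 : C 0 = b := rfl
  have hCs : ∀ k, C (k + 1) = a * C k * a⁻¹ * (C k)⁻¹ := fun k => rfl
  have hCb : ∀ k, JBd N (1 - ρ (C k)) ((2 * c) ^ k * c') := by
    intro k
    induction k with
    | zero => rw [pow_zero, one_mul]; exact hbc
    | succ k ih =>
      rw [hCs]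
      have := j_comm_bd hN hinv hc0 (by positivity) hac ih
      refine this.mono hN (le_of_eq ?_)
      rw [pow_succ]; ring
  have hCsm : ∀ k, JSmall N ρ (C k) := by
    intro k
    refine ⟨(2 * c) ^ k * c', by positivity, ?_, hCb k⟩
    have : (2 * c) ^ k ≤ 1 := pow_le_one₀ (by positivity) (by linarith)
    nlinarith
  -- some term is `1`
  have hδ : ∀ γ : Γ, ∃ δ : ℝ, 0 < δ ∧ (γ ≠ 1 → ∀ e : ℝ, JBd N (1 - ρ γ) e → δ ≤ e) := by
    intro γ
    by_cases hγ : γ = 1
    · exact ⟨1, one_pos, fun h => absurd hγ h⟩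
    · obtain ⟨v, hv⟩ : ∃ v, (1 - ρ γ) v ≠ 0 := by
        by_contra hne
        push Not at hne
        apply hγ
        apply hρ
        rw [map_one]
        have : (1 : Module.End ℂ V) - ρ γ = 0 := LinearMap.ext hne
        exact (sub_eq_zero.1 this).symm
      have hv0 : 0 < N v := by
        rcases (hN.nonneg v).lt_or_eq with h | h
        · exact h
        · exfalso
          apply hv
          rw [hN.zero v h.symm, map_zero]
      have hv1 : 0 < N ((1 - ρ γ) v) := by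
        rcases (hN.nonneg ((1 - ρ γ) v)).lt_or_eq with h | h
        · exact h
        · exact absurd (hN.zero _ h.symm) hv
      refine ⟨N ((1 - ρ γ) v) / N v, div_pos hv1 hv0, fun _ e he => ?_⟩
      rw [div_le_iff₀ hv0]
      exact he v
  choose δ hδ0 hδ1 using hδ
  obtain ⟨γ0, hγ0⟩ := Finite.exists_min δ
  obtain ⟨K, hK⟩ : ∃ K : ℕ, (2 * c) ^ K < δ γ0 := exists_pow_lt_of_lt_one (hδ0 γ0) (by linarith)
  have hCK : C K = 1 := by
    by_contra hne
    have h1 := hδ1 (C K) hne _ (hCb K)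
    have h2 := hγ0 (C K)
    have h3 : (2 * c) ^ K * c' ≤ (2 * c) ^ K := mul_le_of_le_one_right (by positivity) (by linarith)
    linarith
  obtain ⟨d, hd, had⟩ : ∃ d : ℕ, 0 < d ∧ a ^ d = 1 :=
    ⟨orderOf a, orderOf_pos a, pow_orderOf_eq_one a⟩
  -- descend
  have hdesc : ∀ j : ℕ, j ≤ K → a * C (K - j) = C (K - j) * a := by
    intro j
    induction j with
    | zero => intro _; rw [Nat.sub_zero, hCK, mul_one, one_mul]
    | succ j ih =>
      intro hj
      have h1 := ih (by omega)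
      have h2 : K - j = (K - (j + 1)) + 1 := by omega
      rw [h2, hCs] at h1
      exact j_frob hN hinv hρ hd had (hCsm _) h1
  have := hdesc K le_rfl
  rwa [Nat.sub_self] at this

/-- a power of an element of large prime power order is near to `1` -/
theorem j_exists_small [FiniteDimensional ℂ V] (hN : JNorm N) (hinv : ∀ γ v, N (ρ γ v) = N v)
    {l n : ℕ} (hn : 0 < n) (hfr : Module.finrank ℂ V ≤ n) (hb : (13 * n) ^ n < l) {x : Γ}
    {d : ℕ} (hd : 0 < d) (hx : x ^ d = 1) : ∃ t, 0 < t ∧ t < l ∧ JSmall N ρ (x ^ t) := by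
  classical
  set A : Module.End ℂ V := ρ x with hA
  have hAd : A ^ d = 1 := by rw [hA, ← map_pow, hx, map_one]
  have hA1 : JBd N A 1 := fun v => by rw [hA, hinv, one_mul]
  have hζ := Complex.isPrimitiveRoot_exp d hd.ne'
  set ζ := Complex.exp (2 * Real.pi * Complex.I / d) with hζd
  have hpow : ∀ k : ℕ, (ζ ^ k) ^ d = 1 := by
    intro k
    rw [← pow_mul, mul_comm, pow_mul, hζ.pow_eq_one, one_pow]
  have hnorm : ∀ k : ℕ, ‖ζ ^ k‖ = 1 := by
    intro k
    exact Complex.norm_eq_one_of_pow_eq_one (hpow k) hd.ne'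
  have hd' : (0 : ℝ) < d := by exact_mod_cast hd
  have hdC : (d : ℂ) ≠ 0 := by exact_mod_cast hd.ne'
  set S : Finset ℕ := (range d).filter (fun k => jP d A (ζ ^ k) ≠ 0) with hS
  have hScard : S.card ≤ n := by
    refine (jP_card hd hAd hζ S fun k hk => ?_).trans hfr
    rw [hS, Finset.mem_filter, Finset.mem_range] at hk
    exact hk
  have hn13 : 0 < 13 * n := by omega
  -- the pigeonhole
  let box : Fin l → (S → Fin (13 * n)) := fun i k =>
    ⟨⌊((13 * n : ℕ) : ℝ) * Int.fract ((i : ℝ) * k / d)⌋₊, by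
      rw [Nat.floor_lt (by positivity)]
      have h1 := Int.fract_lt_one ((i : ℝ) * k / d)
      have h2 : (0 : ℝ) < ((13 * n : ℕ) : ℝ) := by exact_mod_cast hn13
      nlinarith⟩
  have hcard : Fintype.card (S → Fin (13 * n)) < Fintype.card (Fin l) := by
    rw [Fintype.card_fun, Fintype.card_fin, Fintype.card_fin, Fintype.card_coe]
    exact (Nat.pow_le_pow_right hn13 hScard).trans_lt hb
  obtain ⟨i0, j0, hij0, hbox0⟩ := Fintype.exists_ne_map_eq_of_card_lt box hcard
  obtain ⟨i, j, hij, hbox⟩ : ∃ i j : Fin l, (i : ℕ) < j ∧ box i = box j := by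
    rcases lt_trichotomy (i0 : ℕ) j0 with h | h | h
    · exact ⟨i0, j0, h, hbox0⟩
    · exact absurd (Fin.ext h) hij0
    · exact ⟨j0, i0, h, hbox0.symm⟩
  refine ⟨(j : ℕ) - i, by omega, by have := j.2; omega, ?_⟩
  -- the eigenvalues
  have hev : ∀ k ∈ S, ‖1 - (ζ ^ k) ^ ((j : ℕ) - i)‖ ≤ 2 * Real.pi / (13 * n) := by
    intro k hk
    have h1 := congrFun hbox ⟨k, hk⟩
    have h2 : ⌊((13 * n : ℕ) : ℝ) * Int.fract ((i : ℝ) * k / d)⌋₊ =
        ⌊((13 * n : ℕ) : ℝ) * Int.fract ((j : ℝ) * k / d)⌋₊ := congrArg Fin.val h1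
    set u : ℝ := (i : ℝ) * k / d with hu
    set w : ℝ := (j : ℝ) * k / d with hw
    have h2' : ⌊((13 * n : ℕ) : ℝ) * Int.fract u⌋ = ⌊((13 * n : ℕ) : ℝ) * Int.fract w⌋ := by
      have e1 := Int.natCast_floor_eq_floor (R := ℝ) (a := ((13 * n : ℕ) : ℝ) * Int.fract u)
        (by positivity)
      have e2 := Int.natCast_floor_eq_floor (R := ℝ) (a := ((13 * n : ℕ) : ℝ) * Int.fract w)
        (by positivity)
      rw [← e1, ← e2, h2]
    have h3 := Int.abs_sub_lt_one_of_floor_eq_floor h2'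
    have hn' : (0 : ℝ) < 13 * n := by exact_mod_cast hn13
    have h4 : |Int.fract w - Int.fract u| < 1 / (13 * n) := by
      rw [← mul_sub, abs_mul, abs_of_pos (by exact_mod_cast hn13)] at h3
      push_cast at h3
      rw [lt_div_iff₀ hn', abs_sub_comm]
      linarith
    have h5 : (ζ ^ k) ^ ((j : ℕ) - i) =
        Complex.exp (Complex.I * ((2 * Real.pi * (Int.fract w - Int.fract u) : ℝ) : ℂ)) := by
      have h6 : (ζ ^ k) ^ ((j : ℕ) - i) =
          Complex.exp (2 * Real.pi * Complex.I * ((w - u : ℝ) : ℂ)) := by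
        rw [hζd, ← Complex.exp_nat_mul, ← Complex.exp_nat_mul]
        congr 1
        rw [Nat.cast_sub hij.le, hu, hw]
        push_cast
        field_simp
      rw [h6]
      have h7 : w - u = (Int.fract w - Int.fract u) + ((⌊w⌋ - ⌊u⌋ : ℤ) : ℝ) := by
        have e1 := Int.self_sub_floor w
        have e2 := Int.self_sub_floor u
        push_cast
        linarith
      rw [h7]
      rw [Complex.exp_eq_exp_iff_exists_int]
      refine ⟨⌊w⌋ - ⌊u⌋, ?_⟩
      push_cast
      ring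
    rw [h5, norm_sub_rev]
    refine (Real.norm_exp_I_mul_ofReal_sub_one_le).trans ?_
    rw [Real.norm_eq_abs, abs_mul, abs_of_pos (by positivity : (0 : ℝ) < 2 * Real.pi)]
    calc 2 * Real.pi * |Int.fract w - Int.fract u| ≤ 2 * Real.pi * (1 / (13 * n)) :=
          mul_le_mul_of_nonneg_left h4.le (by positivity)
      _ = 2 * Real.pi / (13 * n) := by ring
  have hn' : (0 : ℝ) < n := by exact_mod_cast hn
  refine ⟨S.card * (2 * Real.pi / (13 * n)), by positivity, ?_, ?_⟩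
  · have h1 : (S.card : ℝ) ≤ n := by exact_mod_cast hScard
    have h2 : (S.card : ℝ) * (2 * Real.pi / (13 * n)) ≤ n * (2 * Real.pi / (13 * n)) :=
      mul_le_mul_of_nonneg_right h1 (by positivity)
    have h3 : (n : ℝ) * (2 * Real.pi / (13 * n)) = 2 * Real.pi / 13 := by field_simp
    have h4 := Real.pi_lt_d2
    rw [h3] at h2
    linarith
  · have h1 : (1 : Module.End ℂ V) - ρ (x ^ ((j : ℕ) - i)) =
        ∑ k ∈ S, (1 - (ζ ^ k) ^ ((j : ℕ) - i)) • jP d A (ζ ^ k) := by
      rw [map_pow, ← hA, jP_eq hd hAd hζ, ← jP_sum (A := A) hd hζ, ← Finset.sum_sub_distrib]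
      rw [hS, Finset.sum_filter]
      apply Finset.sum_congr rfl
      intro k _
      split_ifs with h
      · rw [sub_smul, one_smul]
      · push Not at h
        rw [h, smul_zero, sub_zero]
    rw [h1]
    have h2 := JBd.sum hN S (fun k => (1 - (ζ ^ k) ^ ((j : ℕ) - i)) • jP d A (ζ ^ k))
      (fun _ => 2 * Real.pi / (13 * n)) (fun k hk => by
        have h3 := JBd.smul hN (1 - (ζ ^ k) ^ ((j : ℕ) - i)) (jP_bd hN hd hA1 (hnorm k))
        rw [mul_one] at h3
        exact h3.mono hN (hev k hk))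
    rw [Finset.sum_const, nsmul_eq_mul] at h2
    exact h2

end small

/-- Jordan: the elements of `l`-power order of a finite subgroup of `GL_n(ℂ)` commute, if `l` is
large. -/
theorem jordan_comm {Γ : Type*} [Group Γ] [Finite Γ] {V : Type*} [AddCommGroup V] [Module ℂ V]
    [FiniteDimensional ℂ V] (ρ : Γ →* Module.End ℂ V) (hρ : Function.Injective ρ) {l n : ℕ}
    (hfr : Module.finrank ℂ V ≤ n) (hb : (13 * n) ^ n < l) (hl : l.Prime) (x y : Γ)
    (hx : ∃ m, x ^ l ^ m = 1) (hy : ∃ m, y ^ l ^ m = 1) : x * y = y * x := by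
  classical
  rcases Nat.eq_zero_or_pos n with h0 | hn
  · have h1 : Module.finrank ℂ V = 0 := by omega
    have h2 : Subsingleton V := Module.finrank_zero_iff.1 h1
    apply hρ
    apply LinearMap.ext
    intro v
    exact Subsingleton.elim _ _
  have := Fintype.ofFinite Γ
  -- an invariant norm
  let e : V ≃ₗ[ℂ] (Fin (Module.finrank ℂ V) → ℂ) := (Module.finBasis ℂ V).equivFun
  let N : V → ℝ := fun v => ∑ γ : Γ, ‖e (ρ γ v)‖
  have hN : JNorm N := by
    refine ⟨fun v => Finset.sum_nonneg fun _ _ => norm_nonneg _, fun v w => ?_, fun c v => ?_,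
      fun v h => ?_⟩
    · show ∑ γ : Γ, ‖e (ρ γ (v + w))‖ ≤ ∑ γ : Γ, ‖e (ρ γ v)‖ + ∑ γ : Γ, ‖e (ρ γ w)‖
      rw [← Finset.sum_add_distrib]
      apply Finset.sum_le_sum
      intro γ _
      rw [map_add, map_add]
      exact norm_add_le _ _
    · show ∑ γ : Γ, ‖e (ρ γ (c • v))‖ = ‖c‖ * ∑ γ : Γ, ‖e (ρ γ v)‖
      rw [Finset.mul_sum]
      apply Finset.sum_congr rfl
      intro γ _
      rw [map_smul, map_smul, norm_smul]
    · have h1 := (Finset.sum_eq_zero_iff_of_nonneg fun γ _ => norm_nonneg _).1 h 1 (Finset.mem_univ _)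
      rw [map_one, Module.End.one_apply, norm_eq_zero] at h1
      exact (LinearEquiv.map_eq_zero_iff e).1 h1
  have hinv : ∀ γ v, N (ρ γ v) = N v := by
    intro γ v
    show ∑ γ' : Γ, ‖e (ρ γ' (ρ γ v))‖ = ∑ γ' : Γ, ‖e (ρ γ' v)‖
    refine Fintype.sum_equiv (Equiv.mulRight γ) _ _ fun γ' => ?_
    rw [Equiv.coe_mulRight, map_mul, Module.End.mul_apply]
  -- small powers
  have key : ∀ x : Γ, (∃ m, x ^ l ^ m = 1) → ∃ t s : ℕ, JSmall N ρ (x ^ t) ∧ (x ^ t) ^ s = x := by
    rintro x ⟨m, hm⟩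
    obtain ⟨t, ht0, htl, ht⟩ := j_exists_small hN hinv hn hfr hb (pow_pos hl.pos m) hm
    have hcop : Nat.Coprime t (l ^ m) := by
      apply Nat.Coprime.pow_right
      exact (Nat.coprime_of_lt_prime ht0.ne' htl hl).symm
    have hdvd : orderOf x ∣ l ^ m := orderOf_dvd_of_pow_eq_one hm
    have hcop2 : Nat.Coprime (orderOf x) t := (hcop.coprime_dvd_right hdvd).symm
    obtain ⟨s, hs⟩ := exists_pow_eq_self_of_coprime hcop2.symm
    exact ⟨t, s, ht, hs⟩
  obtain ⟨t, s, h1, h2⟩ := key x hx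
  obtain ⟨t', s', h1', h2'⟩ := key y hy
  have h3 : Commute (x ^ t) (y ^ t') := j_small_comm hN hinv hρ h1 h1'
  have h4 := h3.pow_pow s s'
  rw [h2, h2'] at h4
  exact h4

end MP89bZ
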