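import Pool.Agent.Lib.MP_89bcae_ag.Zl.LZ2
import Pool.Agent.Lib.MP_89bcae_ag.Zl.Emb
import Pool.Agent.Lib.MP_89bcae_ag.Zl.Jor

set_option autoImplicit false

/-!
# Criteria for a group without lift
-/

namespace MP89bZ

open Finset

namespace Lifts

variable {l : ℕ} [hl : Fact l.Prime] {G M : Type*} [Group G] [AddCommGroup M] [DistribMulAction G M]
  {N : AddSubgroup M} {n : ℕ} {σ : Module.End ℤ_[l] (Fin n → ℤ_[l])}
  {ρ : G →* Module.End ℤ_[l] (Fin n → ℤ_[l])} {th : (Fin n → ℤ_[l]) →+ M}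

theorem th_sub (h : Lifts N σ ρ th) (v : Fin n → ℤ_[l]) : th ((σ - 1) v) = 0 := by
  rw [h.ker]
  refine ⟨-v, ?_⟩
  rw [LinearMap.sub_apply, Module.End.one_apply, map_neg]
  abel

theorem exists_of_zero (h : Lifts N σ ρ th) {v : Fin n → ℤ_[l]} (hv : th v = 0) :
    ∃ w, v = (σ - 1) w := by
  obtain ⟨w, hw⟩ := (h.ker v).1 hv
  refine ⟨-w, ?_⟩
  rw [LinearMap.sub_apply, Module.End.one_apply, map_neg, hw]
  abel

theorem kill (h : Lifts N σ ρ th) (x : N) : l • x = 0 := by
  obtain ⟨v, hv⟩ := (h.range x).1 x.2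
  refine Subtype.ext ?_
  show l • (x : M) = 0
  obtain ⟨τ, hcτ, hτ⟩ := l_mul σ h.cyc
  have h3 := congrArg (fun T : Module.End ℤ_[l] (Fin n → ℤ_[l]) => T v) hτ
  simp only [Module.End.mul_apply, Module.End.natCast_apply] at h3
  rw [← hv, ← map_nsmul, h3, h.th_sub]

theorem card_quot (h : Lifts N σ ρ th) :
    Nat.card ((Fin n → ℤ_[l]) ⧸ LinearMap.range (σ - 1)) = Nat.card N := by
  choose f hf using fun x : N => (h.range x).1 x.2
  symm
  refine Nat.card_eq_of_bijective (fun x : N => (LinearMap.range (σ - 1)).mkQ (f x)) ⟨?_, ?_⟩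
  · intro x y hxy
    have h1 : (LinearMap.range (σ - 1)).mkQ (f x - f y) = 0 := by
      rw [map_sub, sub_eq_zero]
      exact hxy
    rw [Submodule.mkQ_apply, Submodule.Quotient.mk_eq_zero] at h1
    obtain ⟨w, hw⟩ := h1
    refine Subtype.ext ?_
    have h2 := h.th_sub w
    rw [hw, map_sub, hf, hf, sub_eq_zero] at h2
    exact h2
  · intro q
    obtain ⟨v, rfl⟩ := Submodule.mkQ_surjective _ q
    refine ⟨⟨th v, (h.range _).2 ⟨v, rfl⟩⟩, ?_⟩
    have h1 : th (f ⟨th v, (h.range _).2 ⟨v, rfl⟩⟩ - v) = 0 := by rw [map_sub, hf, sub_self]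
    obtain ⟨w, hw⟩ := h.exists_of_zero h1
    have h2 : (LinearMap.range (σ - 1)).mkQ (f ⟨th v, (h.range _).2 ⟨v, rfl⟩⟩ - v) = 0 := by
      rw [Submodule.mkQ_apply, Submodule.Quotient.mk_eq_zero]
      exact ⟨w, hw.symm⟩
    rw [map_sub, sub_eq_zero] at h2
    exact h2

variable (ρ) in
/-- the group acting on the lattice -/
noncomputable def rho : G ⧸ ρ.ker →* Module.End ℤ_[l] (Fin n → ℤ_[l]) :=
  QuotientGroup.lift ρ.ker ρ fun _ hg => hg

variable (ρ) in
theorem rho_injective : Function.Injective (rho ρ) := by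
  intro a a'
  refine QuotientGroup.induction_on a fun g => QuotientGroup.induction_on a' fun g' => ?_
  intro h
  have h1 : ρ g = ρ g' := h
  rw [QuotientGroup.eq, MonoidHom.mem_ker, map_mul, ← h1, ← map_mul, inv_mul_cancel, map_one]

theorem finite_quot (h : Lifts N σ ρ th) : Finite (G ⧸ ρ.ker) := by
  have h1 : Finite (Set.range ρ) := h.finite.to_subtype
  refine Finite.of_injective (β := Set.range ρ) (fun q => ⟨rho ρ q, ?_⟩) ?_
  · refine QuotientGroup.induction_on q fun g => ⟨g, rfl⟩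
  · intro q q' hq
    exact rho_injective ρ (congrArg Subtype.val hq)

/-- two elements with the same action on the lattice have the same action on `N` -/
theorem smul_eq (h : Lifts N σ ρ th) {g g' : G} (hg : ρ g = ρ g') {m : M} (hm : m ∈ N) :
    g • m = g' • m := by
  obtain ⟨v, rfl⟩ := (h.range m).1 hm
  rw [← h.equiv, ← h.equiv, hg]

theorem stable (h : Lifts N σ ρ th) (g : G) {m : M} (hm : m ∈ N) : g • m ∈ N := by
  obtain ⟨v, rfl⟩ := (h.range m).1 hm
  exact (h.range _).2 ⟨ρ g v, h.equiv g v⟩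

/-- The criterion of Minkowski and Schur. -/
theorem order (h : Lifts N σ ρ th) {r : ℕ} (hr : Nat.card N = l ^ r) :
    padicValNat l (Nat.card (Set.range fun g : G => fun n : N => g • (n : M))) ≤
      r + padicValNat l r.factorial := by
  classical
  obtain ⟨B, hB⟩ := gens_kill hr h.kill
  choose b hb using fun i => (h.range (B i)).1 (B i).2
  have hb' : ∀ m : Fin n → ℤ_[l], ∃ c : Fin r → ℤ, ∃ m', m = ∑ i, c i • b i + (σ - 1) m' := by
    intro m
    obtain ⟨c, hc⟩ := hB ⟨th m, (h.range _).2 ⟨m, rfl⟩⟩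
    have h1 : th (m - ∑ i, c i • b i) = 0 := by
      have h2 := congrArg Subtype.val hc
      rw [AddSubgroup.val_finsetSum] at h2
      rw [map_sub, map_sum, sub_eq_zero]
      refine h2.trans (sum_congr rfl fun i _ => ?_)
      rw [map_zsmul, hb]
      rfl
    obtain ⟨y, hy⟩ := h.exists_of_zero h1
    exact ⟨c, y, by rw [← hy]; abel⟩
  have hrank := finrank_le_gens σ h.cyc _ hb'
  have hfinΓ : Finite (G ⧸ ρ.ker) := h.finite_quot
  -- the group acting on `N`
  let ψ : G →* AddMonoid.End N :=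
    { toFun := fun g =>
        { toFun := fun x => ⟨g • (x : M), h.stable g x.2⟩
          map_zero' := Subtype.ext (by simp)
          map_add' := fun x y => Subtype.ext (by simp) }
      map_one' := AddMonoidHom.ext fun x => Subtype.ext (one_smul G (x : M))
      map_mul' := fun g g' => AddMonoidHom.ext fun x => Subtype.ext (mul_smul g g' (x : M)) }
  have hψ : ∀ (g : G) (x : N), ((ψ g x : N) : M) = g • (x : M) := fun g x => rfl
  have hkk : ρ.ker ≤ ψ.ker := by
    intro g hg
    rw [MonoidHom.mem_ker] at hg ⊢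
    ext x
    have h1 := h.smul_eq (g := g) (g' := 1) (hg.trans (map_one ρ).symm) x.2
    rw [one_smul] at h1
    exact h1
  have hcardN : Nat.card (Set.range fun g : G => fun n : N => g • (n : M)) = ψ.ker.index := by
    rw [Subgroup.index_eq_card]
    symm
    let f : G ⧸ ψ.ker → Set.range fun g : G => fun n : N => g • (n : M) :=
      Quotient.lift (fun g => ⟨fun n : N => g • (n : M), g, rfl⟩) (by
        intro g g' h
        have h1 : g⁻¹ * g' ∈ ψ.ker := QuotientGroup.leftRel_apply.1 h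
        rw [MonoidHom.mem_ker] at h1
        refine Subtype.ext (funext fun n => ?_)
        have h2 : ψ g' = ψ g := by
          rw [show g' = g * (g⁻¹ * g') by group, map_mul, h1, mul_one]
        show g • (n : M) = g' • (n : M)
        rw [← hψ, ← hψ, h2])
    refine Nat.card_eq_of_bijective f ⟨?_, ?_⟩
    · intro a a'
      refine QuotientGroup.induction_on a fun g => QuotientGroup.induction_on a' fun g' => ?_
      intro h
      have h1 : (fun n : N => g • (n : M)) = fun n : N => g' • (n : M) := congrArg Subtype.val h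
      have h2 : ψ g = ψ g' := by
        ext n
        exact congrFun h1 n
      rw [QuotientGroup.eq, MonoidHom.mem_ker, map_mul, ← h2, ← map_mul, inv_mul_cancel, map_one]
    · rintro ⟨_, g, rfl⟩
      exact ⟨(g : G ⧸ ψ.ker), rfl⟩
  have hdvd : l ^ padicValNat l ψ.ker.index ∣ Nat.card (G ⧸ ρ.ker) := by
    rw [← Subgroup.index_eq_card]
    exact pow_padicValNat_dvd.trans (Subgroup.index_dvd_of_le hkk)
  have h1 := order_lattice (rho ρ) (rho_injective ρ) hdvd
  have h2 : Module.finrank ℤ_[l] (Fin n → ℤ_[l]) / (l - 1) ≤ r := by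
    refine Nat.div_le_of_le_mul ?_
    rw [mul_comm]
    exact hrank
  have h3 : l ^ padicValNat l ψ.ker.index ∣ l ^ r * r.factorial :=
    h1.trans (mul_dvd_mul (pow_dvd_pow _ h2) (Nat.factorial_dvd_factorial h2))
  rw [hcardN]
  have hne : l ^ r * r.factorial ≠ 0 :=
    mul_ne_zero (pow_ne_zero _ hl.out.ne_zero) (Nat.factorial_ne_zero _)
  have h4 := (padicValNat_dvd_iff_le hne).1 h3
  rwa [padicValNat.mul (pow_ne_zero _ hl.out.ne_zero) (Nat.factorial_ne_zero _),
    padicValNat.prime_pow] at h4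

/-- the power of an element of the group which has an order a power of `l` on the lattice and the same action on `N` -/
theorem exists_pow (h : Lifts N σ ρ th) (x : G) (hx : ∃ m, ∀ v ∈ N, (x ^ l ^ m) • v = v) :
    ∃ e : ℕ, (∀ v ∈ N, (x ^ e) • v = x • v) ∧ ∃ m, ((x ^ e : G) : G ⧸ ρ.ker) ^ l ^ m = 1 := by
  have hfin := h.finite_quot
  obtain ⟨m, hm⟩ := hx
  obtain ⟨a, b, hb, hab⟩ := Nat.exists_eq_pow_mul_and_not_dvd (n := orderOf (x : G ⧸ ρ.ker))
    (orderOf_pos _).ne' l hl.out.ne_one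
  have hcop : b.Coprime (l ^ m) := ((Nat.Prime.coprime_iff_not_dvd hl.out).2 hb).symm.pow_right m
  -- powers of `x ^ l ^ m` act trivially
  have htriv : ∀ (j : ℕ), ∀ v ∈ N, (x ^ (l ^ m * j)) • v = v := by
    intro j
    induction j with
    | zero => intro v _; rw [mul_zero, pow_zero, one_smul]
    | succ j ih =>
      intro v hv
      rw [mul_add, mul_one, pow_add, mul_smul, hm v hv, ih v hv]
  obtain ⟨c, hc⟩ : ∃ c, b * c ≡ 1 [MOD l ^ m] := by
    rcases Nat.eq_zero_or_pos m with rfl | hm0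
    · exact ⟨0, by rw [pow_zero]; exact Nat.modEq_one⟩
    · obtain ⟨c, -, hc⟩ := Nat.exists_mul_mod_eq_one_of_coprime hcop
        (Nat.one_lt_pow hm0.ne' hl.out.one_lt)
      exact ⟨c, by rw [Nat.ModEq, hc, Nat.mod_eq_of_lt (Nat.one_lt_pow hm0.ne' hl.out.one_lt)]⟩
  refine ⟨b * c, ?_, a, ?_⟩
  · intro v hv
    have key : ∀ s t : ℕ, s ≡ t [MOD l ^ m] → s ≤ t → (x ^ t) • v = (x ^ s) • v := by
      intro s t hst hle
      obtain ⟨j, hj⟩ := (Nat.modEq_iff_dvd' hle).1 hst
      have h1 : t = s + l ^ m * j := by omega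
      rw [h1, pow_add, mul_smul, htriv j v hv]
    rcases le_total (b * c) 1 with h1 | h1
    · have := key _ _ hc h1
      rw [pow_one] at this
      exact this.symm
    · have := key _ _ hc.symm h1
      rw [pow_one] at this
      exact this
  · rw [← QuotientGroup.mk_pow, ← pow_mul, QuotientGroup.mk_pow]
    have h1 : b * c * l ^ a = orderOf (x : G ⧸ ρ.ker) * c := by rw [hab]; ring
    rw [h1, pow_mul, pow_orderOf_eq_one, one_pow]

/-- The criterion of Jordan. -/
theorem commute (h : Lifts N σ ρ th) {r : ℕ} (hr : Nat.card N = l ^ r) (hb : (13 * r) ^ r < l) (x y : G)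
    (hx : ∃ m, ∀ v ∈ N, (x ^ l ^ m) • v = v) (hy : ∃ m, ∀ v ∈ N, (y ^ l ^ m) • v = v) :
    ∀ v ∈ N, (x * y) • v = (y * x) • v := by
  have hfin := h.finite_quot
  obtain ⟨V, _, _, _, hfr, F, hF⟩ := exists_spaceC σ h.cyc (h.card_quot.trans hr)
  let ρ' : G ⧸ ρ.ker →* Submonoid.centralizer ({σ} : Set (Module.End ℤ_[l] (Fin n → ℤ_[l]))) :=
    (rho ρ).codRestrict _ fun q => by
      rw [Submonoid.mem_centralizer_iff]
      rintro _ rfl
      refine QuotientGroup.induction_on q fun g => ?_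
      exact (h.comm g).eq.symm
  have hρ' : Function.Injective ρ' := by
    intro x y hxy
    exact rho_injective ρ (congrArg Subtype.val hxy)
  obtain ⟨e, he, hem⟩ := h.exists_pow x hx
  obtain ⟨e', he', hem'⟩ := h.exists_pow y hy
  have h1 := jordan_comm (F.comp ρ') (hF.comp hρ') hfr hb hl.out _ _ hem hem'
  have h2 : ρ (x ^ e * y ^ e') = ρ (y ^ e' * x ^ e) := congrArg (rho ρ) h1
  intro v hv
  have h3 := h.smul_eq h2 hv
  rw [mul_smul, mul_smul, he' v hv, he v hv, he _ (h.stable y hv), he' _ (h.stable x hv)] at h3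
  rw [mul_smul, mul_smul, h3]

end Lifts

end MP89bZ
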