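import Pool.Agent.Lib.MP_89bcae_ag.Z.H1
import Pool.Agent.Lib.MP_89bcae_ag.Zl.Lift

/-!
# The module of the locally trivial Tate classes: the subgroup which lifts
-/

attribute [local instance 100000] Pool.Agent.Lib.MP_89bcae_ag.Brt.tffFields
attribute [local instance 100000] Pool.Agent.Lib.MP_89bcae_ag.Wt.ifrNF Pool.Agent.Lib.MP_89bcae_ag.Wt.iddNF

open Polynomial IsDedekindDomain

open scoped Classical

namespace Pool.Agent.Lib.MP_89bcae_ag.Zs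

open Pool.Agent.Lib.MP_89bcae_ag.Wt Pool.Agent.Lib.MP_89bcae_ag.Wt.Lns

set_option linter.unusedSectionVars false

section

variable {k F L Ω : Type} [Field k] [Field F] [Algebra k F] [Field L] [Algebra F[X] L]
  [Field Ω] [Algebra L Ω] [IsAlgClosure k F] [IsFractionRing F[X] L] [IsAlgClosure L Ω]
  {ℓ : ℕ} {P : k[X][X]} {ζ : k} [hG : IsGood ℓ (cOver k F L Ω P)]

attribute [local instance] actA

variable {LT : Co1 ℓ k F L Ω P → Prop} [hl : Fact ℓ.Prime]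

/-- **The classes fixed by the automorphisms over a finite extension are trivial**, if the
exponents `E` of the classes have values in a module without stable subgroups which lift. -/
theorem ntg_of_lift (H : LHyp ℓ k F L P ζ) (hirr : Irreducible (curveL k F L P)) (hLT : LTprop ζ LT)
    (θ₀ : Ω) (hζ : (zA F L Ω ζ) ^ ℓ = 1)
    {M : Type*} [AddCommGroup M] [DistribMulAction (Gst k F L θ₀) M]
    (E : Coch ℓ k F L Ω P → M → Prop)
    (hE : ∀ c, IsW LT θ₀ c → ∃ m, E c m)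
    (hadd : ∀ c c', IsW LT θ₀ c → IsW LT θ₀ c' → ∀ m m', E c m → E c' m' → E (c + c') (m + m'))
    (hET : ∀ c, Trc c → ∀ m, E c m → m = 0)
    (hEZ : ∀ c, IsW LT θ₀ c → ∀ m, E c m → E (Lns.zC ζ hζ c) m)
    (hker : ∀ c, IsW LT θ₀ c → E c 0 → ∃ q : Ω → ℤ, ∀ σ : Ω ≃ₐ[L] Ω,
      vJ (zA F L Ω ζ) hζ (c 1 σ) = symJ (toSym P (galA k F σ)) (rm q) - rm q)
    (hGE : ∀ (g : Gst k F L θ₀) c, IsW LT θ₀ c → ∀ m, E c m → E (act (g : AutO k F L Ω) c) (g • m))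
    (hcrit : ∀ N : AddSubgroup M, N ≠ ⊥ → (∀ m ∈ N, ∃ c, IsW LT θ₀ c ∧ E c m) →
      (∀ g : Gst k F L θ₀, ∀ m ∈ N, g • m ∈ N) → ∀ r : ℕ, Nat.card N = ℓ ^ r →
        ∀ (n : ℕ) (σ : Module.End ℤ_[ℓ] (Fin n → ℤ_[ℓ]))
          (ρ : Gst k F L θ₀ →* Module.End ℤ_[ℓ] (Fin n → ℤ_[ℓ])) (th : (Fin n → ℤ_[ℓ]) →+ M),
          ¬ MP89bZ.Lifts N σ ρ th)
    (k' : IntermediateField k F) [FiniteDimensional k k'] :
    Brt.NTg ℓ 1 (curveL k F L P) LT (Bra.AutK k F L Ω k') := by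
  intro c hc hcLT hfix
  have hcW : IsW LT θ₀ c := isW_of_fixed H hirr θ₀ hc hcLT k' hfix
  suffices h : Trc c by
    intro n
    obtain ⟨A, hA, hA2⟩ := h.2 n
    exact ⟨A, hA, fun g => (one_smul ℕ _).trans (hA2 g)⟩
  by_contra hcT
  have hz : IsPrimitiveRoot (zA F L Ω ζ) ℓ := zA_prim H
  let Z : MP89bZ.Tm ℓ (Co1 ℓ k F L Ω P) →ₗ[ℤ_[ℓ]] MP89bZ.Tm ℓ (Co1 ℓ k F L Ω P) :=
    MP89bZ.Tm.map (zA1 ζ hζ)
  have hZc : ∀ c : MP89bZ.Tm ℓ (Co1 ℓ k F L Ω P), ((Z c : MP89bZ.Tm ℓ (Co1 ℓ k F L Ω P)) :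
      Coch ℓ k F L Ω P) = Lns.zC ζ hζ (c : Coch ℓ k F L Ω P) := fun c => rfl
  have hZi : ∀ (i : ℕ) (c : MP89bZ.Tm ℓ (Co1 ℓ k F L Ω P)),
      (((Z ^ i) c : MP89bZ.Tm ℓ (Co1 ℓ k F L Ω P)) : Coch ℓ k F L Ω P) =
        (Lns.zC ζ hζ)^[i] (c : Coch ℓ k F L Ω P) := by
    intro i
    induction i with
    | zero => intro c; rfl
    | succ i ih =>
      intro c
      rw [pow_succ, Module.End.mul_apply, ih, hZc, Function.iterate_succ_apply]
  obtain ⟨N, hN0, hNE, hNst, ⟨r, hr⟩, n, σ, ρ, th, hle⟩ := MP89bZ.lemma_Z_sub_lift (l := ℓ)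
    (C := MP89bZ.Tm ℓ (Co1 ℓ k F L Ω P)) (G := Gst k F L θ₀) (M := M)
    (fun g a c => MP89bZ.Tm.act_smul g a c)
    (WWm hLT θ₀) (TTm k F L Ω ℓ P) Z
    (fun c hc => by
      show IsW LT θ₀ _
      rw [hZc]
      exact IsW.zC hLT hc hζ)
    (fun c hc => by
      show Trc _
      rw [hZc]
      exact Trc.zC hc ζ hζ)
    (fun g c hc => IsW.act hLT hc g)
    (fun g c hc => Trc.act hc (g : AutO k F L Ω))
    (fun c hc => by
      have h1 : ∑ i ∈ Finset.range ℓ, (Z ^ i) c = 0 := by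
        refine Subtype.ext ?_
        rw [AddSubgroup.val_finsetSum]
        simp only [hZi]
        exact sum_zC_mem ζ hz (c : Coch ℓ k F L Ω P)
      rw [h1]
      exact (TTm k F L Ω ℓ P).zero_mem)
    (fun g c hc => by
      have h1 : Z (g • c) - g • Z c = 0 := by
        rw [sub_eq_zero]
        refine Subtype.ext ?_
        rw [hZc]
        exact (act_zC (g : AutO k F L Ω) ζ hζ (c : Coch ℓ k F L Ω P)).symm
      rw [h1]
      exact (TTm k F L Ω ℓ P).zero_mem)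
    (fun c hc h => by
      have hc' : IsW LT θ₀ (c : Coch ℓ k F L Ω P) := hc
      have h' : Trc ((c : Coch ℓ k F L Ω P) - Lns.zC ζ hζ (c : Coch ℓ k F L Ω P)) := h
      exact h1_trc H hirr (TTc.of_sub_zC H hζ hc'.1 h'.tt))
    (fun c hc h => by
      have hc' : IsW LT θ₀ (c : Coch ℓ k F L Ω P) := hc
      refine ⟨hc'.1, fun n => ?_⟩
      obtain ⟨y, hy, hyT⟩ := h n
      obtain ⟨A, hA, hA2⟩ := hyT.2 n
      refine ⟨A, hA, fun σ => ?_⟩
      rw [← hA2 σ]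
      show _ = (c : Coch ℓ k F L Ω P) n σ -
        ((((ℓ : ℤ_[ℓ]) ^ n) • y : MP89bZ.Tm ℓ (Co1 ℓ k F L Ω P)) : Coch ℓ k F L Ω P) n σ
      rw [MP89bZ.Tm.pow_smul_apply, MP89bZ.Tm.pow_smul, Pi.zero_apply, sub_zero])
    (fun c hc => by
      obtain ⟨U, hU, h3⟩ := hc.2.2
      exact ⟨U, hU, h3⟩)
    (fun c m => E (c : Coch ℓ k F L Ω P) m)
    (fun c hc => hE _ hc)
    (fun c hc c' hc' m m' h h' => hadd _ _ hc hc' m m' h h')
    (fun c hc m h => hET _ hc m h)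
    (fun c hc m h => by
      rw [hZc]
      exact hEZ _ hc m h)
    (fun c hc h => by
      obtain ⟨q, hq⟩ := hker _ hc h
      obtain ⟨y, hy, hyT⟩ := h1_div H hirr hLT hζ hc q hq
      exact ⟨toTm y hy.1, hy, hyT⟩)
    (fun g c hc m h => hGE g _ hc m h)
    (fun h => hcT (h (show toTm c hc ∈ WWm hLT θ₀ from hcW)))
  exact hcrit N hN0 (fun m hm => by
    obtain ⟨c, hc, h⟩ := hNE m hm
    exact ⟨(c : Coch ℓ k F L Ω P), hc, h⟩) hNst r hr n σ ρ th hle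

end

end Pool.Agent.Lib.MP_89bcae_ag.Zs
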