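import Pool.Agent.Lib.MP_89bcae_ag.Zr.Sq

set_option autoImplicit false

/-!
# Lemma Z with the lattice
-/

namespace MP89bZ

open Finset

/-- The group `N` lifts: it is the quotient by `1 - σ` of the module `ℤ_l ^ n`, with `1 + σ + ... + σ ^ (l - 1) = 0`,
on which `G` acts through a finite group of automorphisms which commute with `σ`. -/
structure Lifts {l : ℕ} [Fact l.Prime] {G M : Type*} [Group G] [AddCommGroup M] [DistribMulAction G M]
    (N : AddSubgroup M) {n : ℕ} (σ : Module.End ℤ_[l] (Fin n → ℤ_[l]))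
    (ρ : G →* Module.End ℤ_[l] (Fin n → ℤ_[l])) (th : (Fin n → ℤ_[l]) →+ M) : Prop where
  finite : (Set.range ρ).Finite
  comm : ∀ g, Commute (ρ g) σ
  cyc : ∑ i ∈ range l, σ ^ i = 0
  range : ∀ m, m ∈ N ↔ ∃ v, th v = m
  ker : ∀ v, th v = 0 ↔ ∃ w, v = w - σ w
  equiv : ∀ g v, th (ρ g v) = g • th v

variable {l : ℕ} [hl : Fact l.Prime] {H : Type*} [AddCommGroup H] [Module ℤ_[l] H]

/-- **Lemma Z with the lattice.**  A separated torsion free `ℤ_l`-module with a linear action of a group with finite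
orbits, with an endomorphism `s`, `1 + s + .. + s^(l-1) = 0`, commuting with the action: every
non-zero such module gives a stable subgroup `N ≠ 0` of the quotient by `1 - s`, which lifts. -/
theorem lemma_Z_lift (htf : ∀ (a : ℤ_[l]) (h : H), a • h = 0 → a = 0 ∨ h = 0)
    (hsep : ∀ h : H, (∀ n : ℕ, ∃ y, h = ((l : ℤ_[l]) ^ n) • y) → h = 0)
    (s : H →ₗ[ℤ_[l]] H) (hs : ∑ i ∈ range l, s ^ i = 0)
    {G : Type*} [Group G] [DistribMulAction G H]
    (hlin : ∀ (g : G) (a : ℤ_[l]) (h : H), g • (a • h) = a • (g • h))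
    (hgs : ∀ (g : G) (h : H), g • s h = s (g • h))
    (horb : ∀ h : H, (MulAction.orbit G h).Finite)
    {M : Type*} [AddCommGroup M] [DistribMulAction G M] (th : H →+ M)
    (hth : ∀ (g : G) (h : H), th (g • h) = g • th h)
    (hker : ∀ h : H, th h = 0 ↔ ∃ y, h = y - s y) [Nontrivial H] :
    ∃ N : AddSubgroup M, N ≠ ⊥ ∧ (∀ n ∈ N, ∃ h, th h = n) ∧ (∀ g : G, ∀ n ∈ N, g • n ∈ N) ∧
      (∃ r : ℕ, Nat.card N = l ^ r) ∧
        ∃ (n : ℕ) (σ : Module.End ℤ_[l] (Fin n → ℤ_[l])) (ρ : G →* Module.End ℤ_[l] (Fin n → ℤ_[l]))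
          (th' : (Fin n → ℤ_[l]) →+ M), Lifts N σ ρ th' := by
  classical
  obtain ⟨c0, hc0⟩ := exists_ne (0 : H)
  have hl0' : (l : ℤ_[l]) ≠ 0 := PadicInt.prime_p.ne_zero
  -- powers of `s`
  have hsl : s ^ l = 1 := by
    have h1 := mul_geom_sum s l
    rw [hs, mul_zero] at h1
    exact (sub_eq_zero.1 h1.symm)
  have hgsp : ∀ (i : ℕ) (g : G) (h : H), g • (s ^ i) h = (s ^ i) (g • h) := by
    intro i
    induction i with
    | zero => intro g h; simp
    | succ i ih =>
      intro g h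
      rw [pow_succ, Module.End.mul_apply, Module.End.mul_apply, ih, hgs]
  set T : Set H := (fun p : ℕ × H => (s ^ p.1) p.2) '' ((↑(range l) : Set ℕ) ×ˢ MulAction.orbit G c0)
    with hTdef
  have hT : T.Finite := ((range l).finite_toSet.prod (horb c0)).image _
  have hTs : ∀ x ∈ T, s x ∈ T := by
    rintro _ ⟨⟨i, h⟩, ⟨hi, hh⟩, rfl⟩
    have hi' : i < l := by simpa using hi
    dsimp only
    rw [← Module.End.mul_apply, ← pow_succ']
    by_cases hil : i + 1 < l
    · exact ⟨(i + 1, h), ⟨by simpa using hil, hh⟩, rfl⟩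
    · have h1 : i + 1 = l := by omega
      rw [h1, hsl]
      exact ⟨(0, h), ⟨by simpa using hl.out.pos, hh⟩, by simp⟩
  have hTg : ∀ g : G, ∀ x ∈ T, g • x ∈ T := by
    rintro g _ ⟨⟨i, h⟩, ⟨hi, hh⟩, rfl⟩
    refine ⟨(i, g • h), ⟨hi, ?_⟩, ?_⟩
    · obtain ⟨g', rfl⟩ := hh
      exact ⟨g * g', by simp [mul_smul]⟩
    · exact (hgsp i g h).symm
  have hcT : c0 ∈ T :=
    ⟨(0, c0), ⟨by simpa using hl.out.pos, MulAction.mem_orbit_self c0⟩, by simp⟩
  set P := Submodule.span ℤ_[l] T with hP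
  have hPs : ∀ x ∈ P, s x ∈ P := by
    intro x hx
    refine Submodule.span_induction (fun y hy => Submodule.subset_span (hTs y hy)) ?_ ?_ ?_ hx
    · rw [map_zero]; exact P.zero_mem
    · intro x y _ _ h1 h2; rw [map_add]; exact P.add_mem h1 h2
    · intro a x _ h1; rw [map_smul]; exact P.smul_mem a h1
  have hPg : ∀ g : G, ∀ x ∈ P, g • x ∈ P := by
    intro g x hx
    refine Submodule.span_induction (fun y hy => Submodule.subset_span (hTg g y hy)) ?_ ?_ ?_ hx
    · rw [smul_zero]; exact P.zero_mem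
    · intro x y _ _ h1 h2; rw [smul_add]; exact P.add_mem h1 h2
    · intro a x _ h1; rw [hlin]; exact P.smul_mem a h1
  set H1 := sat l P with hH1
  have hHs : ∀ x ∈ H1, s x ∈ H1 := by
    rintro x ⟨a, ha⟩
    exact ⟨a, by rw [← map_smul]; exact hPs _ ha⟩
  have hHg : ∀ g : G, ∀ x ∈ H1, g • x ∈ H1 := by
    rintro g x ⟨a, ha⟩
    exact ⟨a, by rw [← hlin]; exact hPg g _ ha⟩
  have hcH : c0 ∈ H1 := le_sat P (Submodule.subset_span hcT)
  have hfin : Module.Finite ℤ_[l] H1 := sat_finite htf hsep T hT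
  have hntf : Module.IsTorsionFree ℤ_[l] H1 := by
    refine Module.IsTorsionFree.of_smul_eq_zero fun a h hh => ?_
    rcases htf a h (by simpa using congrArg Subtype.val hh) with h1 | h1
    · exact Or.inl h1
    · exact Or.inr (Subtype.ext h1)
  -- the restriction of `s`
  let σ : Module.End ℤ_[l] H1 := s.restrict hHs
  have hσc : ∀ (i : ℕ) (x : H1), (((σ ^ i) x : H1) : H) = (s ^ i) x := by
    intro i
    induction i with
    | zero => intro x; simp
    | succ i ih =>
      intro x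
      rw [pow_succ, Module.End.mul_apply, ih, pow_succ, Module.End.mul_apply]
      rfl
  have hσ : ∑ i ∈ range l, σ ^ i = 0 := by
    ext x
    rw [LinearMap.sum_apply, Submodule.coe_sum]
    simp only [hσc]
    rw [← LinearMap.sum_apply, hs]
    simp
  have hσ1 : ∀ x : H1, (((σ - 1) x : H1) : H) = s x - x := by
    intro x
    rw [LinearMap.sub_apply, Module.End.one_apply, Submodule.coe_sub]
    rfl
  -- `th` on multiples of `l`
  obtain ⟨τ, hcτ, hτ⟩ := l_mul s hs
  have hlτ : ∀ h : H, (l : ℤ_[l]) • h = s (τ h) - τ h := by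
    intro h
    have h3 := congrArg (fun T : Module.End ℤ_[l] H => T h) hτ
    simp only [Module.End.mul_apply, Module.End.natCast_apply] at h3
    rw [Nat.cast_smul_eq_nsmul, h3, LinearMap.sub_apply, Module.End.one_apply]
  have hcτ' : ∀ h : H, s (τ h) = τ (s h) := fun h =>
    congrArg (fun T : Module.End ℤ_[l] H => T h) hcτ.eq
  have hthl : ∀ h : H, th ((l : ℤ_[l]) • h) = 0 := by
    intro h
    rw [hker]
    exact ⟨-τ h, by rw [hlτ, map_neg]; abel⟩
  have hsinj : ∀ h : H, s h = h → h = 0 := by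
    intro h hh
    have h1 : (l : ℤ_[l]) • h = 0 := by rw [hlτ, hcτ', hh, sub_self]
    rcases htf _ _ h1 with h2 | h2
    · exact absurd h2 hl0'
    · exact h2
  have hker1 : ∀ x : H1, th x = 0 → ∃ y : H1, x = (σ - 1) y := by
    intro x hx
    obtain ⟨y, hy⟩ := (hker x).1 hx
    obtain ⟨τ1, hcτ1, hτ1⟩ := l_mul σ hσ
    -- `l • y` lies in `H1`
    have h1 : (l : ℤ_[l]) • y = -(τ1 x : H) := by
      rw [← sub_eq_zero]
      apply hsinj
      have h3 := congrArg (fun T : Module.End ℤ_[l] H1 => ((T x : H1) : H)) hτ1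
      simp only [Module.End.mul_apply, Module.End.natCast_apply] at h3
      rw [hσ1] at h3
      have h4 : ((l • x : H1) : H) = (l : ℤ_[l]) • (x : H) := by
        rw [Nat.cast_smul_eq_nsmul]; rfl
      rw [h4] at h3
      have h5 : s (τ1 x : H) = (l : ℤ_[l]) • (x : H) + (τ1 x : H) := by rw [h3]; abel
      have h6 : s y = y - x := by rw [hy]; abel
      rw [sub_neg_eq_add, map_add, map_smul, h5, h6, smul_sub]
      abel
    have h2 : y ∈ H1 := by
      refine sat_of_smul 1 ?_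
      rw [pow_one, h1]
      exact H1.neg_mem (τ1 x).2
    refine ⟨-⟨y, h2⟩, Subtype.ext ?_⟩
    rw [hσ1, hy]
    simp only [NegMemClass.coe_neg, map_neg]
    abel
  have hker2 : ∀ x : H1, th ((σ - 1) x : H1) = 0 := by
    intro x
    rw [hker]
    exact ⟨-x, by rw [hσ1, map_neg]; abel⟩
  -- the subgroup
  let N : AddSubgroup M := AddSubgroup.map th H1.toAddSubgroup
  have hmemN : ∀ x : H1, th x ∈ N := fun x => ⟨x, x.2, rfl⟩
  have hkill : ∀ n : N, l • n = 0 := by
    rintro ⟨_, x, hx, rfl⟩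
    refine Subtype.ext ?_
    show l • th x = 0
    rw [← map_nsmul, ← Nat.cast_smul_eq_nsmul ℤ_[l]]
    exact hthl x
  have hfinN : Finite N := by
    obtain ⟨k, x, hx⟩ := Module.Finite.exists_fin (R := ℤ_[l]) (M := H1)
    have hex : ∀ n : N, ∃ c : Fin k → Fin l, (n : M) = ∑ i, ((c i : ℕ)) • th (x i) := by
      rintro ⟨_, h, hh, rfl⟩
      have h1 : (⟨h, hh⟩ : H1) ∈ Submodule.span ℤ_[l] (Set.range x) := by rw [hx]; trivial
      obtain ⟨a, ha⟩ := (Submodule.mem_span_range_iff_exists_fun _).1 h1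
      choose c hc hca using fun i => PadicInt.exists_mem_range (a i)
      refine ⟨fun i => ⟨c i, hc i⟩, ?_⟩
      have h2 : h = ∑ i, a i • (x i : H) := by
        have := congrArg Subtype.val ha
        simpa using this.symm
      show th h = ∑ i, c i • th ((x i : H1) : H)
      rw [h2, map_sum]
      refine sum_congr rfl fun i _ => ?_
      have h3 := hca i
      rw [PadicInt.maximalIdeal_eq_span_p, Ideal.mem_span_singleton] at h3
      obtain ⟨d, hd⟩ := h3
      have h4 : a i • (x i : H) = (c i) • (x i : H) + (l : ℤ_[l]) • (d • (x i : H)) := by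
        rw [← Nat.cast_smul_eq_nsmul ℤ_[l] (c i), ← mul_smul, ← hd, ← add_smul]
        congr 1
        ring
      rw [h4, map_add, hthl, add_zero, map_nsmul]
    choose c hc using hex
    refine Finite.of_injective c fun n n' h => Subtype.ext ?_
    rw [hc, hc n', h]
  refine ⟨N, ?_, ?_, ?_, card_kill hkill, ?_⟩
  · -- `N` is not zero
    intro hbot
    have h1 : ∀ x : H1, ∃ y : H1, x = (σ - 1) y := by
      intro x
      refine hker1 x ?_
      have := hmemN x
      rw [hbot] at this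
      exact AddSubgroup.mem_bot.1 this
    have h2 : (⟨c0, hcH⟩ : H1) = 0 := by
      refine iInf_pi σ hσ _ fun k => ?_
      induction k with
      | zero => exact ⟨⟨c0, hcH⟩, by simp⟩
      | succ k ih =>
        obtain ⟨m', hm'⟩ := ih
        obtain ⟨y, hy⟩ := h1 m'
        exact ⟨y, by rw [hm', hy, pow_succ, Module.End.mul_apply]⟩
    exact hc0 (congrArg Subtype.val h2)
  · rintro _ ⟨x, _, rfl⟩
    exact ⟨x, rfl⟩
  · -- `N` is stable
    rintro g _ ⟨x, hx, rfl⟩
    exact ⟨g • x, hHg g x hx, hth g x⟩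
  · -- the lattice
    let φ : G →* Module.End ℤ_[l] H1 :=
      { toFun := fun g =>
          { toFun := fun x => ⟨g • (x : H), hHg g x x.2⟩
            map_add' := fun x y => Subtype.ext (by simp)
            map_smul' := fun a x => Subtype.ext (by simp [hlin]) }
        map_one' := by ext x; simp
        map_mul' := fun g g' => by ext x; simp [mul_smul] }
    have hφ : ∀ (g : G) (x : H1), ((φ g x : H1) : H) = g • (x : H) := fun g x => rfl
    have hfinΓ : (Set.range φ).Finite := by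
      obtain ⟨k, x, hx⟩ := Module.Finite.exists_fin (R := ℤ_[l]) (M := H1)
      let F : Set.range φ → ∀ i : Fin k, MulAction.orbit G ((x i : H1) : H) := fun q i =>
        ⟨((q : Module.End ℤ_[l] H1) (x i) : H), by
          obtain ⟨_, g, rfl⟩ := q
          exact MulAction.mem_orbit _ _⟩
      have : ∀ i : Fin k, Finite (MulAction.orbit G ((x i : H1) : H)) := fun i => (horb _).to_subtype
      have h0 : Finite (Set.range φ) := by
        refine Finite.of_injective F fun q q' h => Subtype.ext ?_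
        refine LinearMap.ext_on_range hx fun i => ?_
        have h1 : (F q i : H) = F q' i := congrArg Subtype.val (congrFun h i)
        exact Subtype.ext h1
      exact Set.toFinite _
    let b := Module.finBasis ℤ_[l] H1
    let e : H1 ≃ₗ[ℤ_[l]] (Fin (Module.finrank ℤ_[l] H1) → ℤ_[l]) := b.equivFun
    let E : Module.End ℤ_[l] H1 ≃ₐ[ℤ_[l]] Module.End ℤ_[l] (Fin (Module.finrank ℤ_[l] H1) → ℤ_[l]) :=
      e.conjAlgEquiv ℤ_[l]
    have hE : ∀ (f : Module.End ℤ_[l] H1) v, E f v = e (f (e.symm v)) := fun f v => rfl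
    refine ⟨Module.finrank ℤ_[l] H1, E σ, (E : Module.End ℤ_[l] H1 →* _).comp φ,
      th.comp ((H1.subtype : H1 →+ H).comp (e.symm : _ →+ H1)), ?_, ?_, ?_, ?_, ?_, ?_⟩
    · rw [MonoidHom.coe_comp, Set.range_comp]
      exact hfinΓ.image _
    · intro g
      show E (φ g) * E σ = E σ * E (φ g)
      rw [← map_mul, ← map_mul]
      congr 1
      ext x
      show g • s (x : H) = s (g • (x : H))
      exact hgs g x
    · simp only [← map_pow]
      rw [← map_sum, hσ, map_zero]
    · intro m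
      constructor
      · rintro ⟨x, hx, rfl⟩
        refine ⟨e ⟨x, hx⟩, ?_⟩
        show th ((e.symm (e ⟨x, hx⟩) : H1) : H) = th x
        rw [LinearEquiv.symm_apply_apply]
      · rintro ⟨v, rfl⟩
        exact hmemN _
    · intro v
      constructor
      · intro h
        obtain ⟨y, hy⟩ := hker1 (e.symm v) h
        refine ⟨-e y, ?_⟩
        rw [hE, map_neg, LinearEquiv.symm_apply_apply, map_neg, map_neg]
        have h1 : v = e (σ y - y) := by
          rw [← LinearEquiv.symm_apply_eq, hy]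
          rfl
        rw [h1, map_sub]
        abel
      · rintro ⟨w, rfl⟩
        have h1 : e.symm (w - E σ w) = -((σ - 1) (e.symm w)) := by
          rw [hE, map_sub, LinearEquiv.symm_apply_apply, LinearMap.sub_apply, Module.End.one_apply]
          abel
        show th ((e.symm (w - E σ w) : H1) : H) = 0
        rw [h1]
        simp only [NegMemClass.coe_neg, map_neg, hker2, neg_zero]
    · intro g v
      show th ((e.symm (E (φ g) v) : H1) : H) = g • th ((e.symm v : H1) : H)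
      rw [hE, LinearEquiv.symm_apply_apply, ← hth]
      rfl

/-- **Lemma Z for a subquotient, with the lattice** -/
theorem lemma_Z_sub_lift {C G M : Type*} [AddCommGroup C] [Module ℤ_[l] C] [Group G]
    [DistribMulAction G C] [AddCommGroup M] [DistribMulAction G M]
    (hlin : ∀ (g : G) (a : ℤ_[l]) (c : C), g • (a • c) = a • (g • c))
    (W T : Submodule ℤ_[l] C) (Z : C →ₗ[ℤ_[l]] C)
    (hZW : ∀ c ∈ W, Z c ∈ W) (hZT : ∀ c ∈ T, Z c ∈ T)
    (hGW : ∀ (g : G), ∀ c ∈ W, g • c ∈ W) (hGT : ∀ (g : G), ∀ c ∈ T, g • c ∈ T)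
    (hZ : ∀ c ∈ W, ∑ i ∈ range l, (Z ^ i) c ∈ T)
    (hZG : ∀ (g : G), ∀ c ∈ W, Z (g • c) - g • Z c ∈ T)
    (hinj : ∀ c ∈ W, c - Z c ∈ T → c ∈ T)
    (hsep : ∀ c ∈ W, (∀ n : ℕ, ∃ y ∈ W, c - ((l : ℤ_[l]) ^ n) • y ∈ T) → c ∈ T)
    (horb : ∀ c ∈ W, ∃ H : Subgroup G, H.FiniteIndex ∧ ∀ g ∈ H, g • c - c ∈ T)
    (E : C → M → Prop) (hE : ∀ c ∈ W, ∃ m, E c m)
    (hadd : ∀ c ∈ W, ∀ c' ∈ W, ∀ m m', E c m → E c' m' → E (c + c') (m + m'))
    (hET : ∀ c ∈ T, ∀ m, E c m → m = 0)
    (hEZ : ∀ c ∈ W, ∀ m, E c m → E (Z c) m)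
    (hker : ∀ c ∈ W, E c 0 → ∃ y ∈ W, c - (y - Z y) ∈ T)
    (hGE : ∀ (g : G), ∀ c ∈ W, ∀ m, E c m → E (g • c) (g • m))
    (hne : ¬ W ≤ T) :
    ∃ N : AddSubgroup M, N ≠ ⊥ ∧ (∀ m ∈ N, ∃ c ∈ W, E c m) ∧ (∀ (g : G), ∀ m ∈ N, g • m ∈ N) ∧
      (∃ r : ℕ, Nat.card N = l ^ r) ∧
        ∃ (n : ℕ) (σ : Module.End ℤ_[l] (Fin n → ℤ_[l])) (ρ : G →* Module.End ℤ_[l] (Fin n → ℤ_[l]))
          (th' : (Fin n → ℤ_[l]) →+ M), Lifts N σ ρ th' := by
  classical
  -- uniqueness of values
  have huniq : ∀ c ∈ W, ∀ m m', E c m → E c m' → m = m' := by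
    intro c hc m m' h h'
    obtain ⟨m'', h''⟩ := hE (-c) (W.neg_mem hc)
    have h1 := hadd c hc (-c) (W.neg_mem hc) m m'' h h''
    have h2 := hadd c hc (-c) (W.neg_mem hc) m' m'' h' h''
    rw [add_neg_cancel] at h1 h2
    have h3 := hET 0 T.zero_mem _ h1
    have h4 := hET 0 T.zero_mem _ h2
    exact add_right_cancel (h3.trans h4.symm)
  -- the quotient
  let T' : Submodule ℤ_[l] W := T.comap W.subtype
  have memT' : ∀ w : W, w ∈ T' ↔ (w : C) ∈ T := fun w => Iff.rfl
  let mk : W →ₗ[ℤ_[l]] W ⧸ T' := T'.mkQ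
  have mk_surj : Function.Surjective mk := T'.mkQ_surjective
  have mk_eq : ∀ a b : W, mk a = mk b ↔ (a : C) - b ∈ T := by
    intro a b
    rw [← sub_eq_zero, ← map_sub]
    exact (Submodule.Quotient.mk_eq_zero T').trans (memT' _)
  have mk_zero : ∀ a : W, mk a = 0 ↔ (a : C) ∈ T := by
    intro a
    rw [← map_zero mk, mk_eq, ZeroMemClass.coe_zero, sub_zero]
  -- induced endomorphism
  let ZW : W →ₗ[ℤ_[l]] W := Z.restrict hZW
  have ZW_coe : ∀ w : W, (ZW w : C) = Z w := fun w => rfl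
  let Zb : Module.End ℤ_[l] (W ⧸ T') := T'.mapQ T' ZW fun w hw => by
    rw [Submodule.mem_comap, memT', ZW_coe]
    exact hZT _ ((memT' w).1 hw)
  have Zb_mk : ∀ w, Zb (mk w) = mk (ZW w) := fun w => rfl
  -- induced action
  let φ : G → W →ₗ[ℤ_[l]] W := fun g =>
    { toFun := fun w => ⟨g • (w : C), hGW g w w.2⟩
      map_add' := fun a b => Subtype.ext (smul_add g (a : C) b)
      map_smul' := fun a b => Subtype.ext (hlin g a b) }
  have φ_coe : ∀ g (w : W), (φ g w : C) = g • (w : C) := fun g w => rfl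
  let ψ : G → W ⧸ T' →ₗ[ℤ_[l]] W ⧸ T' := fun g => T'.mapQ T' (φ g) fun w hw => by
    rw [Submodule.mem_comap, memT', φ_coe]
    exact hGT g _ ((memT' w).1 hw)
  have ψ_mk : ∀ g w, ψ g (mk w) = mk (φ g w) := fun g w => rfl
  let act : DistribMulAction G (W ⧸ T') :=
    { smul := fun u q => ψ u q
      one_smul := fun q => by
        obtain ⟨w, rfl⟩ := mk_surj q
        change ψ 1 (mk w) = mk w
        rw [ψ_mk]
        exact congrArg mk (Subtype.ext (one_smul G (w : C)))
      mul_smul := fun u v q => by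
        obtain ⟨w, rfl⟩ := mk_surj q
        change ψ (u * v) (mk w) = ψ u (ψ v (mk w))
        rw [ψ_mk, ψ_mk, ψ_mk]
        exact congrArg mk (Subtype.ext (mul_smul u v (w : C)))
      smul_zero := fun u => map_zero (ψ u)
      smul_add := fun u x y => map_add (ψ u) x y }
  have smul_mk : ∀ (u : G) (w : W), u • (mk w) = mk (φ u w) := fun u w => rfl
  have smul_ψ : ∀ (u : G) (q : W ⧸ T'), u • q = ψ u q := fun u q => rfl
  -- the homomorphism e
  have hex : ∀ w : W, ∃ m, E w m := fun w => hE w w.2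
  choose ew hew using hex
  have e_eq : ∀ a b : W, mk a = mk b → ew a = ew b := by
    intro a b hab
    rw [mk_eq] at hab
    obtain ⟨m, hm⟩ := hE ((a : C) - b) (W.sub_mem a.2 b.2)
    have h1 := hET _ hab m hm
    rw [h1] at hm
    have h2 := hadd _ (W.sub_mem a.2 b.2) _ b.2 _ _ hm (hew b)
    rw [sub_add_cancel, zero_add] at h2
    exact huniq a a.2 _ _ (hew a) h2
  have ew_add : ∀ a b : W, ew (a + b) = ew a + ew b := fun a b =>
    huniq (a + b : W) (a + b).2 _ _ (hew (a + b)) (hadd a a.2 b b.2 _ _ (hew a) (hew b))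
  have ew_zero : ew 0 = 0 := hET 0 T.zero_mem _ (hew 0)
  have ew_uniq : ∀ (w : W) m, E w m → ew w = m := fun w m h => huniq w w.2 _ _ (hew w) h
  let e : W ⧸ T' →+ M :=
    { toFun := fun q => ew (Function.surjInv mk_surj q)
      map_zero' := by
        rw [← ew_zero]
        exact e_eq _ _ (by rw [Function.surjInv_eq mk_surj, map_zero])
      map_add' := fun a b => by
        rw [← ew_add]
        exact e_eq _ _ (by
          rw [Function.surjInv_eq mk_surj, map_add, Function.surjInv_eq mk_surj,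
            Function.surjInv_eq mk_surj]) }
  have e_mk : ∀ w, e (mk w) = ew w := fun w => e_eq _ _ (Function.surjInv_eq mk_surj _)
  -- powers
  have it1 : ∀ (i : ℕ) (w : W), (Zb ^ i) (mk w) = mk ((ZW ^ i) w) := by
    intro i
    induction i with
    | zero => intro w; rfl
    | succ i ih => intro w; rw [pow_succ, Module.End.mul_apply, Zb_mk, ih, pow_succ, Module.End.mul_apply]
  have it2 : ∀ (i : ℕ) (w : W), (((ZW ^ i) w : W) : C) = (Z ^ i) (w : C) := by
    intro i
    induction i with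
    | zero => intro w; rfl
    | succ i ih =>
      intro w
      rw [pow_succ, Module.End.mul_apply, ih, pow_succ, Module.End.mul_apply, ZW_coe]
  have hZb : ∑ i ∈ range l, Zb ^ i = 0 := by
    refine LinearMap.ext fun q => ?_
    obtain ⟨w, rfl⟩ := mk_surj q
    rw [LinearMap.sum_apply, LinearMap.zero_apply]
    simp only [it1]
    rw [← map_sum, mk_zero, Submodule.coe_sum]
    simp only [it2]
    exact hZ w w.2
  have hinjb : ∀ q : W ⧸ T', q - Zb q = 0 → q = 0 := by
    intro q hq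
    obtain ⟨w, rfl⟩ := mk_surj q
    rw [Zb_mk, ← map_sub, mk_zero, Submodule.coe_sub, ZW_coe] at hq
    rw [mk_zero]
    exact hinj w w.2 hq
  have hnt : Nontrivial (W ⧸ T') := by
    obtain ⟨c, hcW, hcT⟩ := Set.not_subset.1 hne
    exact ⟨⟨mk ⟨c, hcW⟩, 0, fun h => hcT ((mk_zero _).1 h)⟩⟩
  obtain ⟨N, h1, hr, h2, h3, h4⟩ := lemma_Z_lift (l := l) (H := W ⧸ T') (G := G) (M := M)
    (torsion_free_of_inj Zb hZb hinjb)
    (fun q hq => by
      obtain ⟨w, rfl⟩ := mk_surj q
      rw [mk_zero]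
      refine hsep w w.2 fun n => ?_
      obtain ⟨y, hy⟩ := hq n
      obtain ⟨y', rfl⟩ := mk_surj y
      rw [← map_smul, mk_eq] at hy
      exact ⟨y', y'.2, hy⟩)
    Zb hZb
    (fun g a q => by rw [smul_ψ, smul_ψ, map_smul])
    (fun g q => by
      obtain ⟨w, rfl⟩ := mk_surj q
      rw [Zb_mk, smul_mk, smul_mk, Zb_mk, mk_eq, φ_coe, ZW_coe, ZW_coe, φ_coe, ← neg_sub]
      exact T.neg_mem (hZG g w w.2))
    (fun q => by
      obtain ⟨w, rfl⟩ := mk_surj q
      obtain ⟨H, hH, hHT⟩ := horb w w.2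
      have hle : H ≤ MulAction.stabilizer G (mk w) := by
        intro g hg
        rw [MulAction.mem_stabilizer_iff, smul_mk, mk_eq, φ_coe]
        exact hHT g hg
      have hfi : (MulAction.stabilizer G (mk w)).FiniteIndex := Subgroup.finiteIndex_of_le hle
      have h1 : Finite (G ⧸ MulAction.stabilizer G (mk w)) := Subgroup.finite_quotient_of_finiteIndex
      have h2 : Finite (MulAction.orbit G (mk w)) :=
        Finite.of_equiv _ (MulAction.orbitEquivQuotientStabilizer G (mk w)).symm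
      exact Set.toFinite _)
    e
    (fun g q => by
      obtain ⟨w, rfl⟩ := mk_surj q
      rw [smul_mk, e_mk, e_mk]
      exact ew_uniq (φ g w) _ (hGE g w w.2 _ (hew w)))
    (fun q => by
      obtain ⟨w, rfl⟩ := mk_surj q
      constructor
      · intro h
        rw [e_mk] at h
        have h1 := hew w
        rw [h] at h1
        obtain ⟨y, hy, hyT⟩ := hker w w.2 h1
        refine ⟨mk ⟨y, hy⟩, ?_⟩
        rw [Zb_mk, ← map_sub, mk_eq]
        exact hyT
      · rintro ⟨y, hy⟩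
        obtain ⟨y', rfl⟩ := mk_surj y
        rw [hy, map_sub, Zb_mk, e_mk, e_mk, sub_eq_zero]
        exact (ew_uniq (ZW y') _ (hEZ y' y'.2 _ (hew y'))).symm)
  refine ⟨N, h1, fun m hm => ?_, h2, h3, h4⟩
  obtain ⟨q, hq⟩ := hr m hm
  obtain ⟨w, rfl⟩ := mk_surj q
  rw [e_mk] at hq
  exact ⟨w, w.2, hq ▸ hew w⟩


end MP89bZ
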